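import Mathlib
set_option autoImplicit false
set_option linter.unusedSectionVars false
open scoped ENNReal NNReal MeasureTheory
open MeasureTheory Set Filter Topology

namespace Pool.Agent.Results.MP_69cc0b_an.Reflection

section Pot
variable {V : Type*} [NormedAddCommGroup V] [NormedSpace ℝ V] [MeasurableSpace V] [BorelSpace V]

/-- Infimum of the `φ`-lengths of 1-Lipschitz curves from `A` to `x`. -/
noncomputable def pot (φ : V → ℝ≥0∞) (A : Set V) (x : V) : ℝ≥0∞ :=
  ⨅ (c : ℝ → V) (ℓ : ℝ) (_ : LipschitzWith 1 c ∧ 0 ≤ ℓ ∧ c 0 ∈ A ∧ c ℓ = x),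
    ∫⁻ τ in Ioc 0 ℓ, φ (c τ)

lemma pot_eq_zero {φ : V → ℝ≥0∞} {A : Set V} {x : V} (hx : x ∈ A) : pot φ A x = 0 := by
  refine le_antisymm ?_ bot_le
  refine (iInf_le _ (fun _ => x)).trans ((iInf_le _ 0).trans ((iInf_le _
    ⟨LipschitzWith.const' x, le_rfl, hx, rfl⟩).trans ?_))
  simp

/-- Gluing two 1-Lipschitz curves. -/
lemma glue {c d : ℝ → V} (hc : LipschitzWith 1 c) (hd : LipschitzWith 1 d) {ℓ s : ℝ}
    (h : d ℓ = c s) : LipschitzWith 1 (fun τ => if τ ≤ ℓ then d τ else c (s + (τ - ℓ))) := by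
  refine LipschitzWith.of_dist_le_mul ?_
  have key : ∀ x y : ℝ, x ≤ y →
      dist (if x ≤ ℓ then d x else c (s + (x - ℓ))) (if y ≤ ℓ then d y else c (s + (y - ℓ))) ≤
        y - x := by
    intro x y hxy
    have hd' := fun a b => hd.dist_le_mul a b
    have hc' := fun a b => hc.dist_le_mul a b
    simp only [NNReal.coe_one, one_mul, Real.dist_eq] at hd' hc'
    split_ifs with h1 h2 h2
    · refine (hd' x y).trans ?_
      rw [abs_sub_comm, abs_of_nonneg (by linarith)]
    · have h3 := hd' x ℓ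
      have h4 := hc' s (s + (y - ℓ))
      rw [← h] at h4
      have h5 : |x - ℓ| = ℓ - x := by rw [abs_sub_comm, abs_of_nonneg (by linarith)]
      have h6 : |s - (s + (y - ℓ))| = y - ℓ := by
        rw [abs_sub_comm, show s + (y - ℓ) - s = y - ℓ by ring, abs_of_nonneg (by linarith)]
      have := dist_triangle (d x) (d ℓ) (c (s + (y - ℓ)))
      linarith
    · linarith
    · refine (hc' _ _).trans ?_
      rw [abs_sub_comm, show s + (y - ℓ) - (s + (x - ℓ)) = y - x by ring,
        abs_of_nonneg (by linarith)]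
  intro x y
  rw [NNReal.coe_one, one_mul, Real.dist_eq]
  rcases le_total x y with hxy | hxy
  · refine (key x y hxy).trans ?_
    rw [abs_sub_comm]; exact le_abs_self _
  · rw [dist_comm]
    exact (key y x hxy).trans (le_abs_self _)

lemma pot_le (φ : V → ℝ≥0∞) (A : Set V) {c : ℝ → V} (hc : LipschitzWith 1 c) {s t : ℝ}
    (hst : s ≤ t) : pot φ A (c t) ≤ pot φ A (c s) + ∫⁻ τ in Ioc s t, φ (c τ) := by
  have h1 : ∀ (d : ℝ → V) (ℓ : ℝ) (_ : LipschitzWith 1 d ∧ 0 ≤ ℓ ∧ d 0 ∈ A ∧ d ℓ = c s),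
      pot φ A (c t) ≤ (∫⁻ τ in Ioc 0 ℓ, φ (d τ)) + ∫⁻ τ in Ioc s t, φ (c τ) := by
    rintro d ℓ ⟨hd, hℓ, hd0, hdℓ⟩
    have e0 : (fun τ => if τ ≤ ℓ then d τ else c (s + (τ - ℓ))) 0 ∈ A := by
      simpa [hℓ] using hd0
    have e1 : (fun τ => if τ ≤ ℓ then d τ else c (s + (τ - ℓ))) (ℓ + (t - s)) = c t := by
      by_cases h : ℓ + (t - s) ≤ ℓ
      · have hts : t = s := by linarith
        simp only [hts, sub_self, add_zero, le_refl, if_true]
        exact hdℓ
      · simp only [h, if_false]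
        congr 1; ring
    refine (iInf_le _ (fun τ => if τ ≤ ℓ then d τ else c (s + (τ - ℓ)))).trans
      ((iInf_le _ (ℓ + (t - s))).trans ((iInf_le _ ⟨glue hc hd hdℓ, by linarith, e0, e1⟩).trans ?_))
    · rw [← Ioc_union_Ioc_eq_Ioc hℓ (by linarith : ℓ ≤ ℓ + (t - s)),
        lintegral_union measurableSet_Ioc (Ioc_disjoint_Ioc_of_le le_rfl)]
      apply add_le_add
      · refine (setLIntegral_congr_fun measurableSet_Ioc fun τ hτ => ?_).le
        simp [hτ.2]
      · have h2 : ∫⁻ τ in Ioc s t, φ (c τ) = ∫⁻ τ in Ioc ℓ (ℓ + (t - s)), φ (c (s + (τ - ℓ))) := by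
          rw [← lintegral_indicator measurableSet_Ioc, ← lintegral_indicator measurableSet_Ioc,
            ← lintegral_add_right_eq_self _ (s - ℓ)]
          refine lintegral_congr fun τ => ?_
          by_cases hτ : τ ∈ Ioc ℓ (ℓ + (t - s))
          · have hτ' : τ + (s - ℓ) ∈ Ioc s t := ⟨by linarith [hτ.1], by linarith [hτ.2]⟩
            rw [indicator_of_mem hτ, indicator_of_mem hτ']
            congr 2; ring
          · have hτ' : τ + (s - ℓ) ∉ Ioc s t := fun hc => hτ ⟨by linarith [hc.1], by linarith [hc.2]⟩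
            rw [indicator_of_notMem hτ, indicator_of_notMem hτ']
        rw [h2]
        refine (setLIntegral_congr_fun measurableSet_Ioc fun τ hτ => ?_).le
        simp [not_le.2 hτ.1]
  have h2 : pot φ A (c s) + ∫⁻ τ in Ioc s t, φ (c τ) =
      ⨅ (d : ℝ → V) (ℓ : ℝ) (_ : LipschitzWith 1 d ∧ 0 ≤ ℓ ∧ d 0 ∈ A ∧ d ℓ = c s),
        ((∫⁻ τ in Ioc 0 ℓ, φ (d τ)) + ∫⁻ τ in Ioc s t, φ (c τ)) := by
    rw [pot]
    simp only [ENNReal.iInf_add]
  rw [h2]
  exact le_iInf fun d => le_iInf fun ℓ => le_iInf fun h => h1 d ℓ h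

lemma pot_le_rev (φ : V → ℝ≥0∞) (A : Set V) {c : ℝ → V} (hc : LipschitzWith 1 c) {s t : ℝ}
    (hst : s ≤ t) : pot φ A (c s) ≤ pot φ A (c t) + ∫⁻ τ in Ioc s t, φ (c τ) := by
  have hc' : LipschitzWith 1 (fun τ => c (s + t - τ)) := by
    refine LipschitzWith.of_dist_le_mul fun x y => ?_
    refine (hc.dist_le_mul _ _).trans ?_
    simp only [NNReal.coe_one, one_mul, Real.dist_eq]
    rw [show s + t - x - (s + t - y) = -(x - y) by ring, abs_neg]
  have h := pot_le φ A hc' hst
  simp only [add_sub_cancel_left, add_sub_cancel_right] at h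
  refine h.trans (add_le_add le_rfl (le_of_eq ?_))
  rw [← lintegral_indicator measurableSet_Ioc, ← lintegral_indicator measurableSet_Ioc,
    ← lintegral_sub_left_eq_self (fun τ => (Ioc s t).indicator (fun τ => φ (c τ)) τ) (s + t)]
  have hae : ∀ᵐ τ : ℝ, τ ≠ s ∧ τ ≠ t := by
    have : ({s, t} : Set ℝ)ᶜ ∈ ae (volume : Measure ℝ) := by
      rw [mem_ae_iff, compl_compl]
      exact (Set.toFinite {s, t}).measure_zero _
    filter_upwards [this] with τ hτ
    simpa using hτ
  refine lintegral_congr_ae ?_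
  filter_upwards [hae] with τ hτ
  by_cases h1 : τ ∈ Ioc s t
  · have h2 : s + t - τ ∈ Ioc s t :=
      ⟨by have := lt_of_le_of_ne h1.2 hτ.2; linarith, by linarith [h1.1]⟩
    rw [indicator_of_mem h1, indicator_of_mem h2]
  · have h2 : s + t - τ ∉ Ioc s t := fun hc => h1
      ⟨lt_of_le_of_ne (by linarith [hc.2]) (Ne.symm hτ.1), by linarith [hc.1]⟩
    rw [indicator_of_notMem h1, indicator_of_notMem h2]

/-- The truncated potential. -/
noncomputable def upot (φ : V → ℝ≥0∞) (A : Set V) (x : V) : ℝ≥0∞ := min 1 (pot φ A x)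

lemma min_one_add_le {a b e : ℝ≥0∞} (h : a ≤ b + e) : min 1 a ≤ min 1 b + e := by
  rcases le_total 1 b with h1 | h1
  · rw [min_eq_left h1]
    exact (min_le_left _ _).trans le_self_add
  · rw [min_eq_right h1]
    exact (min_le_right _ _).trans h

lemma upot_le (φ : V → ℝ≥0∞) (A : Set V) {c : ℝ → V} (hc : LipschitzWith 1 c) {s t : ℝ}
    (hst : s ≤ t) : upot φ A (c t) ≤ upot φ A (c s) + ∫⁻ τ in Ioc s t, φ (c τ) :=
  min_one_add_le (pot_le φ A hc hst)

lemma upot_le_rev (φ : V → ℝ≥0∞) (A : Set V) {c : ℝ → V} (hc : LipschitzWith 1 c) {s t : ℝ}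
    (hst : s ≤ t) : upot φ A (c s) ≤ upot φ A (c t) + ∫⁻ τ in Ioc s t, φ (c τ) :=
  min_one_add_le (pot_le_rev φ A hc hst)

lemma upot_ne_top (φ : V → ℝ≥0∞) (A : Set V) (x : V) : upot φ A x ≠ ⊤ :=
  ne_top_of_le_ne_top ENNReal.one_ne_top (min_le_left _ _)

/-- The segment as a 1-Lipschitz curve. -/
lemma exists_seg (x y : V) : ∃ c : ℝ → V, LipschitzWith 1 c ∧ c 0 = x ∧ c (dist x y) = y ∧
    ∀ τ ∈ Icc 0 (dist x y), dist (c τ) x ≤ dist x y := by
  rcases eq_or_ne x y with rfl | hxy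
  · exact ⟨fun _ => x, LipschitzWith.const' x, rfl, rfl, fun τ _ => by simp⟩
  · have hd : 0 < dist x y := dist_pos.2 hxy
    refine ⟨fun τ => x + (τ / dist x y) • (y - x), ?_, by simp, ?_, ?_⟩
    · refine LipschitzWith.of_dist_le_mul fun s t => ?_
      rw [dist_add_left, dist_eq_norm, ← sub_smul, norm_smul, ← dist_eq_norm y x, dist_comm y x,
        ← sub_div, norm_div, Real.norm_of_nonneg hd.le, div_mul_cancel₀ _ hd.ne', Real.dist_eq,
        Real.norm_eq_abs]
      simp
    · simp [div_self hd.ne']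
    · intro τ hτ
      rw [dist_self_add_left, norm_smul, norm_div, Real.norm_of_nonneg hd.le, ← dist_eq_norm y x,
        dist_comm y x, div_mul_cancel₀ _ hd.ne', Real.norm_of_nonneg hτ.1]
      exact hτ.2

lemma upot_continuous {φ : V → ℝ≥0∞} (hφ : Continuous φ) (hfin : ∀ x, φ x ≠ ⊤) (A : Set V) :
    Continuous (upot φ A) := by
  rw [continuous_iff_continuousAt]
  intro x
  -- local bound
  obtain ⟨M, hM, δ, hδ, hb⟩ : ∃ M : ℝ≥0∞, M ≠ ⊤ ∧ ∃ δ > 0, ∀ y, dist y x ≤ δ → φ y ≤ M := by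
    have h1 : ∀ᶠ y in 𝓝 x, φ y < φ x + 1 :=
      hφ.continuousAt.eventually (gt_mem_nhds (ENNReal.lt_add_right (hfin x) one_ne_zero))
    obtain ⟨δ, hδ, hb⟩ := Metric.eventually_nhds_iff.1 h1
    refine ⟨φ x + 1, by simp [hfin x], δ / 2, by positivity, fun y hy => (hb (by linarith)).le⟩
  have hcost : ∀ y, dist y x ≤ δ → upot φ A y ≤ upot φ A x + M * ENNReal.ofReal (dist y x) ∧
      upot φ A x ≤ upot φ A y + M * ENNReal.ofReal (dist y x) := by
    intro y hy
    obtain ⟨c, hc, hc0, hc1, hcb⟩ := exists_seg x y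
    have h1 := upot_le φ A hc (dist_nonneg (x := x) (y := y))
    have h2 := upot_le_rev φ A hc (dist_nonneg (x := x) (y := y))
    rw [hc0, hc1] at h1 h2
    have h3 : ∫⁻ τ in Ioc 0 (dist x y), φ (c τ) ≤ M * ENNReal.ofReal (dist y x) := by
      calc ∫⁻ τ in Ioc 0 (dist x y), φ (c τ) ≤ ∫⁻ τ in Ioc 0 (dist x y), M := by
            refine setLIntegral_mono measurable_const fun τ hτ => hb _ ?_
            refine (hcb τ ⟨hτ.1.le, hτ.2⟩).trans ?_
            rwa [dist_comm]
        _ = M * ENNReal.ofReal (dist y x) := by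
            rw [setLIntegral_const, Real.volume_Ioc, sub_zero, dist_comm]
    exact ⟨h1.trans (add_le_add le_rfl h3), h2.trans (add_le_add le_rfl h3)⟩
  have hlim : Tendsto (fun y => M * ENNReal.ofReal (dist y x)) (𝓝 x) (𝓝 0) := by
    have h1 : Tendsto (fun y => ENNReal.ofReal (dist y x)) (𝓝 x) (𝓝 0) := by
      rw [← ENNReal.ofReal_zero]
      refine ENNReal.tendsto_ofReal ?_
      have : Tendsto (fun y => dist y x) (𝓝 x) (𝓝 (dist x x)) := by
        exact (continuous_id.dist continuous_const).tendsto x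
      rwa [dist_self] at this
    have h2 := ENNReal.Tendsto.const_mul (a := M) h1 (Or.inr hM)
    rwa [mul_zero] at h2
  rw [ContinuousAt, ENNReal.tendsto_nhds (upot_ne_top φ A x)]
  intro ε hε
  have h1 : ∀ᶠ y in 𝓝 x, M * ENNReal.ofReal (dist y x) ≤ ε := hlim.eventually_le_const hε
  have h2 : ∀ᶠ y in 𝓝 x, dist y x ≤ δ := Metric.closedBall_mem_nhds x hδ
  filter_upwards [h1, h2] with y hy1 hy2
  obtain ⟨h3, h4⟩ := hcost y hy2
  exact ⟨tsub_le_iff_right.2 (h4.trans (by gcongr)), h3.trans (by gcongr)⟩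

end Pot


section Polar
variable {V : Type*} [NormedAddCommGroup V] [NormedSpace ℝ V] [MeasurableSpace V] [BorelSpace V]

/-- Abstract reflection `r` with signed height `f`. -/
structure Refl (r : V → V) (f : V → ℝ) : Prop where
  lip : LipschitzWith 1 r
  invol : ∀ x, r (r x) = x
  fcont : Continuous f
  fneg : ∀ x, f (r x) = - f x
  fix : ∀ x, f x = 0 → r x = x

/-- Polarization of `u`. -/
noncomputable def vpol (r : V → V) (f : V → ℝ) (u : V → ℝ≥0∞) (x : V) : ℝ≥0∞ :=
  if 0 ≤ f x then max (u x) (u (r x)) else min (u x) (u (r x))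

open Classical in
/-- Polarization of the metric `φ` along `u`. -/
noncomputable def psi (r : V → V) (f : V → ℝ) (φ u : V → ℝ≥0∞) (x : V) : ℝ≥0∞ :=
  if vpol r f u x = u x then φ x else φ (r x)

variable {r : V → V} {f : V → ℝ} {φ u : V → ℝ≥0∞}

lemma vpol_cases (x : V) : vpol r f u x = u x ∨ vpol r f u x = u (r x) := by
  unfold vpol
  split_ifs
  · exact max_choice _ _
  · exact min_choice _ _

lemma vpol_continuous (hr : Refl r f) (hu : Continuous u) : Continuous (vpol r f u) := by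
  have h1 : Continuous fun x => u (r x) := hu.comp hr.lip.continuous
  refine Continuous.if_le (hu.max h1) (hu.min h1) continuous_const hr.fcont ?_
  intro x hx
  rw [hr.fix x hx.symm, max_self, min_self]

lemma psi_cases (x : V) : psi r f φ u x = φ x ∨ psi r f φ u x = φ (r x) := by
  unfold psi
  split_ifs
  · exact Or.inl rfl
  · exact Or.inr rfl

lemma psi_pair (hr : Refl r f) (g : ℝ≥0∞ → ℝ≥0∞) (x : V) :
    g (psi r f φ u x) + g (psi r f φ u (r x)) = g (φ x) + g (φ (r x)) := by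
  have hrr := hr.invol x
  have hf := hr.fneg x
  by_cases hE : u x = u (r x)
  · have h1 : vpol r f u x = u x := by rcases vpol_cases (r := r) (f := f) (u := u) x with h | h <;> simp [h, hE]
    have h2 : vpol r f u (r x) = u (r x) := by
      rcases vpol_cases (r := r) (f := f) (u := u) (r x) with h | h <;> simp [h, hE, hrr]
    simp [psi, h1, h2]
  · have hf0 : f x ≠ 0 := fun h => hE (by rw [hr.fix x h])
    rcases lt_or_gt_of_ne hf0 with h | h
    · have h1 : vpol r f u x = min (u x) (u (r x)) := if_neg (not_le.2 h)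
      have h2 : vpol r f u (r x) = max (u (r x)) (u x) := by
        rw [vpol, if_pos (by rw [hf]; linarith), hrr]
      rcases lt_or_gt_of_ne hE with h3 | h3
      · rw [min_eq_left h3.le] at h1
        rw [max_eq_left h3.le] at h2
        simp [psi, h1, h2]
      · rw [min_eq_right h3.le] at h1
        rw [max_eq_right h3.le] at h2
        simp [psi, h1, h2, hE, Ne.symm hE, hrr, add_comm]
    · have h1 : vpol r f u x = max (u x) (u (r x)) := if_pos h.le
      have h2 : vpol r f u (r x) = min (u (r x)) (u x) := by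
        rw [vpol, if_neg (by rw [hf]; linarith), hrr]
      rcases lt_or_gt_of_ne hE with h3 | h3
      · rw [max_eq_right h3.le] at h1
        rw [min_eq_right h3.le] at h2
        simp [psi, h1, h2, hE, Ne.symm hE, hrr, add_comm]
      · rw [max_eq_left h3.le] at h1
        rw [min_eq_left h3.le] at h2
        simp [psi, h1, h2]

lemma psi_measurable (hr : Refl r f) (hu : Continuous u) (hφ : Measurable φ) :
    Measurable (psi r f φ u) := by
  refine Measurable.ite ?_ hφ (hφ.comp hr.lip.continuous.measurable)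
  exact measurableSet_eq_fun (vpol_continuous hr hu).measurable hu.measurable

lemma lintegral_psi {μ : Measure V} (hr : Refl r f) (hμ : MeasurePreserving r μ μ)
    (hu : Continuous u) (hφ : Measurable φ) (n : ℕ) :
    ∫⁻ x, psi r f φ u x ^ n ∂μ = ∫⁻ x, φ x ^ n ∂μ := by
  have hm := (psi_measurable (φ := φ) hr hu hφ).pow_const n
  have h1 : ∫⁻ x, psi r f φ u (r x) ^ n ∂μ = ∫⁻ x, psi r f φ u x ^ n ∂μ :=
    hμ.lintegral_comp hm
  have h2 : ∫⁻ x, φ (r x) ^ n ∂μ = ∫⁻ x, φ x ^ n ∂μ := hμ.lintegral_comp (hφ.pow_const n)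
  have h3 : ∫⁻ x, (psi r f φ u x ^ n + psi r f φ u (r x) ^ n) ∂μ =
      ∫⁻ x, (φ x ^ n + φ (r x) ^ n) ∂μ :=
    lintegral_congr fun x => psi_pair (φ := φ) (u := u) hr (fun a => a ^ n) x
  rw [lintegral_add_left hm, lintegral_add_left (hφ.pow_const n), h1, h2, ← two_mul, ← two_mul] at h3
  exact (ENNReal.mul_right_inj (by norm_num) (by norm_num)).1 h3

/-- Two extended numbers differ by at most `e`. -/
def Near (x y e : ℝ≥0∞) : Prop := x ≤ y + e ∧ y ≤ x + e

lemma Near.refl (x e : ℝ≥0∞) : Near x x e := ⟨le_self_add, le_self_add⟩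

lemma Near.trans {x y z e₁ e₂ : ℝ≥0∞} (h₁ : Near x y e₁) (h₂ : Near y z e₂) : Near x z (e₁ + e₂) := by
  refine ⟨h₁.1.trans ?_, h₂.2.trans ?_⟩
  · calc y + e₁ ≤ (z + e₂) + e₁ := by gcongr; exact h₂.1
      _ = z + (e₁ + e₂) := by ring
  · calc y + e₂ ≤ (x + e₁) + e₂ := by gcongr; exact h₁.2
      _ = x + (e₁ + e₂) := by ring

lemma Near.mono {x y e₁ e₂ : ℝ≥0∞} (h : Near x y e₁) (he : e₁ ≤ e₂) : Near x y e₂ :=
  ⟨h.1.trans (by gcongr), h.2.trans (by gcongr)⟩

/-- `φ` bounds the variation of `u` along 1-Lipschitz curves. -/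
def UG (φ u : V → ℝ≥0∞) : Prop := ∀ c : ℝ → V, LipschitzWith 1 c → ∀ s t : ℝ, s ≤ t →
  Near (u (c s)) (u (c t)) (∫⁻ τ in Ioc s t, φ (c τ))

lemma upot_UG (φ : V → ℝ≥0∞) (A : Set V) : UG φ (upot φ A) := fun _ hc _ _ hst =>
  ⟨upot_le_rev φ A hc hst, upot_le φ A hc hst⟩

lemma sel (hr : Refl r f) (hu : Continuous u) {c : ℝ → V} (hc : Continuous c) {J : Set ℝ}
    (hJ : IsPreconnected J) (hne : ∀ τ ∈ J, u (c τ) ≠ u (r (c τ))) :
    (∀ τ ∈ J, vpol r f u (c τ) = u (c τ)) ∨ (∀ τ ∈ J, vpol r f u (c τ) = u (r (c τ))) := by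
  have hv := vpol_continuous hr hu
  have hc1 : IsClosed {τ | vpol r f u (c τ) = u (c τ)} := isClosed_eq (hv.comp hc) (hu.comp hc)
  have hc2 : IsClosed {τ | vpol r f u (c τ) = u (r (c τ))} :=
    isClosed_eq (hv.comp hc) (hu.comp (hr.lip.continuous.comp hc))
  by_contra hcon
  push Not at hcon
  obtain ⟨⟨x, hx, hx'⟩, ⟨y, hy, hy'⟩⟩ := hcon
  have := isPreconnected_closed_iff.1 hJ _ _ hc1 hc2 (fun τ _ => vpol_cases (c τ))
    ⟨y, hy, (vpol_cases (c y)).resolve_right hy'⟩ ⟨x, hx, (vpol_cases (c x)).resolve_left hx'⟩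
  obtain ⟨z, hz, hz1, hz2⟩ := this
  exact hne z hz (hz1.symm.trans hz2)

lemma sel_int (hr : Refl r f) (hu : Continuous u) (hUG : UG φ u) {c : ℝ → V}
    (hc : LipschitzWith 1 c) {s t : ℝ} (hst : s ≤ t)
    (hne : ∀ τ ∈ Ioo s t, u (c τ) ≠ u (r (c τ))) :
    Near (vpol r f u (c s)) (vpol r f u (c t)) (∫⁻ τ in Ioc s t, psi r f φ u (c τ)) := by
  rcases hst.eq_or_lt with rfl | hlt
  · exact Near.refl _ _
  have hv := vpol_continuous hr hu
  have hcl : closure (Ioo s t) = Icc s t := closure_Ioo hlt.ne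
  have hsm : s ∈ closure (Ioo s t) := by rw [hcl]; exact ⟨le_rfl, hst⟩
  have htm : t ∈ closure (Ioo s t) := by rw [hcl]; exact ⟨hst, le_rfl⟩
  rcases sel hr hu hc.continuous isPreconnected_Ioo hne with h | h
  · have hcl1 : closure (Ioo s t) ⊆ {τ | vpol r f u (c τ) = u (c τ)} :=
      closure_minimal h (isClosed_eq (hv.comp hc.continuous) (hu.comp hc.continuous))
    have e1 : vpol r f u (c s) = u (c s) := hcl1 hsm
    have e2 : vpol r f u (c t) = u (c t) := hcl1 htm
    rw [e1, e2]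
    refine (hUG c hc s t hst).mono (le_of_eq ?_)
    rw [← setLIntegral_congr (Ioo_ae_eq_Ioc (μ := (volume : Measure ℝ))),
      ← setLIntegral_congr (Ioo_ae_eq_Ioc (μ := (volume : Measure ℝ)))]
    refine setLIntegral_congr_fun measurableSet_Ioo fun τ hτ => ?_
    simp [psi, h τ hτ]
  · have hrc : LipschitzWith 1 (fun τ => r (c τ)) := by
      have := hr.lip.comp hc
      rwa [one_mul] at this
    have hcl1 : closure (Ioo s t) ⊆ {τ | vpol r f u (c τ) = u (r (c τ))} :=
      closure_minimal h (isClosed_eq (hv.comp hc.continuous) (hu.comp hrc.continuous))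
    have e1 : vpol r f u (c s) = u (r (c s)) := hcl1 hsm
    have e2 : vpol r f u (c t) = u (r (c t)) := hcl1 htm
    rw [e1, e2]
    refine (hUG _ hrc s t hst).mono (le_of_eq ?_)
    rw [← setLIntegral_congr (Ioo_ae_eq_Ioc (μ := (volume : Measure ℝ))),
      ← setLIntegral_congr (Ioo_ae_eq_Ioc (μ := (volume : Measure ℝ)))]
    refine setLIntegral_congr_fun measurableSet_Ioo fun τ hτ => ?_
    simp [psi, h τ hτ, Ne.symm (hne τ hτ)]

lemma lintegral_Ioc_split (g : ℝ → ℝ≥0∞) {a b c : ℝ} (hab : a ≤ b) (hbc : b ≤ c) :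
    ∫⁻ τ in Ioc a c, g τ = (∫⁻ τ in Ioc a b, g τ) + ∫⁻ τ in Ioc b c, g τ := by
  rw [← Ioc_union_Ioc_eq_Ioc hab hbc,
    lintegral_union measurableSet_Ioc (Ioc_disjoint_Ioc_of_le le_rfl)]

lemma local_near (hr : Refl r f) (hu : Continuous u) (hUG : UG φ u) {c : ℝ → V}
    (hc : LipschitzWith 1 c) {s t : ℝ} (hst : s ≤ t) (η : ℝ≥0∞)
    (h1 : ∀ τ ∈ Icc s t, φ (c τ) ≤ φ (c s) + η ∧ φ (c s) ≤ φ (c τ) + η)
    (h2 : ∀ τ ∈ Icc s t, φ (r (c τ)) ≤ φ (r (c s)) + η ∧ φ (r (c s)) ≤ φ (r (c τ)) + η) :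
    Near (vpol r f u (c s)) (vpol r f u (c t))
      ((∫⁻ τ in Ioc s t, psi r f φ u (c τ)) + (η + η) * ENNReal.ofReal (t - s)) := by
  have hrc : LipschitzWith 1 (fun τ => r (c τ)) := by
    have := hr.lip.comp hc
    rwa [one_mul] at this
  let K : Set ℝ := {τ | u (c τ) = u (r (c τ))} ∩ Icc s t
  have hKc : IsCompact K :=
    isCompact_Icc.inter_left (isClosed_eq (hu.comp hc.continuous) (hu.comp hrc.continuous))
  rcases K.eq_empty_or_nonempty with hK | hK
  · refine (sel_int hr hu hUG hc hst ?_).mono le_self_add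
    intro τ hτ heq
    have : τ ∈ K := ⟨heq, Ioo_subset_Icc_self hτ⟩
    rw [hK] at this
    exact this
  · have ha := hKc.sInf_mem hK
    have hb := hKc.sSup_mem hK
    set a := sInf K
    set b := sSup K
    have hab : a ≤ b := csInf_le_csSup hK hKc.bddBelow hKc.bddAbove
    have hsa : s ≤ a := ha.2.1
    have hbt : b ≤ t := hb.2.2
    have n1 := sel_int hr hu hUG hc hsa (fun τ hτ heq => absurd
      (csInf_le hKc.bddBelow (show τ ∈ K from ⟨heq, hτ.1.le, hτ.2.le.trans (hab.trans hbt)⟩))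
      (not_le.2 hτ.2))
    have n3 := sel_int hr hu hUG hc hbt (fun τ hτ heq => absurd
      (le_csSup hKc.bddAbove (show τ ∈ K from ⟨heq, (hsa.trans hab).trans hτ.1.le, hτ.2.le⟩))
      (not_le.2 hτ.1))
    have va : vpol r f u (c a) = u (c a) := by
      rcases vpol_cases (r := r) (f := f) (u := u) (c a) with h | h
      · exact h
      · rw [h]; exact ha.1.symm
    have vb : vpol r f u (c b) = u (c b) := by
      rcases vpol_cases (r := r) (f := f) (u := u) (c b) with h | h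
      · exact h
      · rw [h]; exact hb.1.symm
    have n2 : Near (vpol r f u (c a)) (vpol r f u (c b))
        ((∫⁻ τ in Ioc a b, psi r f φ u (c τ)) + (η + η) * ENNReal.ofReal (b - a)) := by
      have hconst : (∫⁻ τ in Ioc a b, psi r f φ u (c τ)) + (η + η) * ENNReal.ofReal (b - a) =
          ∫⁻ τ in Ioc a b, (psi r f φ u (c τ) + (η + η)) := by
        rw [lintegral_add_right _ measurable_const, setLIntegral_const, Real.volume_Ioc]
      rw [va, vb, hconst]
      rcases le_total (φ (c s)) (φ (r (c s))) with hle | hle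
      · refine (hUG c hc a b hab).mono ?_
        refine setLIntegral_mono' measurableSet_Ioc fun τ hτ => ?_
        have hτ' : τ ∈ Icc s t := ⟨hsa.trans hτ.1.le, hτ.2.trans hbt⟩
        have key : φ (c s) ≤ psi r f φ u (c τ) + η := by
          rcases psi_cases (r := r) (f := f) (φ := φ) (u := u) (c τ) with h | h
          · rw [h]; exact (h1 τ hτ').2
          · rw [h]; exact hle.trans (h2 τ hτ').2
        calc φ (c τ) ≤ φ (c s) + η := (h1 τ hτ').1
          _ ≤ (psi r f φ u (c τ) + η) + η := by gcongr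
          _ = _ := by ring
      · have e1 : u (c a) = u (r (c a)) := ha.1
        have e2 : u (c b) = u (r (c b)) := hb.1
        rw [e1, e2]
        refine (hUG _ hrc a b hab).mono ?_
        refine setLIntegral_mono' measurableSet_Ioc fun τ hτ => ?_
        have hτ' : τ ∈ Icc s t := ⟨hsa.trans hτ.1.le, hτ.2.trans hbt⟩
        have key : φ (r (c s)) ≤ psi r f φ u (c τ) + η := by
          rcases psi_cases (r := r) (f := f) (φ := φ) (u := u) (c τ) with h | h
          · rw [h]; exact hle.trans (h1 τ hτ').2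
          · rw [h]; exact (h2 τ hτ').2
        calc φ (r (c τ)) ≤ φ (r (c s)) + η := (h2 τ hτ').1
          _ ≤ (psi r f φ u (c τ) + η) + η := by gcongr
          _ = _ := by ring
    refine ((n1.trans n2).trans n3).mono ?_
    rw [lintegral_Ioc_split _ hsa (hab.trans hbt), lintegral_Ioc_split _ hab hbt]
    have hle : (η + η) * ENNReal.ofReal (b - a) ≤ (η + η) * ENNReal.ofReal (t - s) := by
      gcongr
    calc _ = ((∫⁻ τ in Ioc s a, psi r f φ u (c τ)) + ((∫⁻ τ in Ioc a b, psi r f φ u (c τ)) +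
        ∫⁻ τ in Ioc b t, psi r f φ u (c τ))) + (η + η) * ENNReal.ofReal (b - a) := by ring
      _ ≤ _ := by gcongr

lemma psi_UG (hr : Refl r f) {φ' : V → ℝ≥0} (hφ' : Continuous φ') (hu : Continuous u)
    (hUG : UG (fun x => (φ' x : ℝ≥0∞)) u) : UG (psi r f (fun x => (φ' x : ℝ≥0∞)) u) (vpol r f u) := by
  intro c hc s t hst
  have hrc : LipschitzWith 1 (fun τ => r (c τ)) := by
    have := hr.lip.comp hc
    rwa [one_mul] at this
  -- approximate version
  have happ : ∀ η : ℝ≥0, 0 < η → Near (vpol r f u (c s)) (vpol r f u (c t))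
      ((∫⁻ τ in Ioc s t, psi r f (fun x => (φ' x : ℝ≥0∞)) u (c τ)) +
        (η + η) * ENNReal.ofReal (t - s)) := by
    intro η hη
    have huc : UniformContinuousOn (fun τ => (φ' (c τ), φ' (r (c τ)))) (Icc s t) :=
      isCompact_Icc.uniformContinuousOn_of_continuous
        ((hφ'.comp hc.continuous).prodMk (hφ'.comp hrc.continuous)).continuousOn
    obtain ⟨δ, hδ, hδ'⟩ := Metric.uniformContinuousOn_iff.1 huc η hη
    have hstep : ∀ n : ℕ, ∀ s' t' : ℝ, s ≤ s' → s' ≤ t' → t' ≤ t → t' - s' ≤ n * (δ / 2) →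
        Near (vpol r f u (c s')) (vpol r f u (c t'))
          ((∫⁻ τ in Ioc s' t', psi r f (fun x => (φ' x : ℝ≥0∞)) u (c τ)) +
            (η + η) * ENNReal.ofReal (t' - s')) := by
      intro n
      induction n with
      | zero =>
        intro s' t' _ h2 _ h4
        have : s' = t' := by
          rw [Nat.cast_zero, zero_mul] at h4
          linarith
        rw [this]
        exact Near.refl _ _
      | succ n ih =>
        intro s' t' h1 h2 h3 h4
        let m := max s' (t' - δ / 2)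
        have hm1 : s' ≤ m := le_max_left _ _
        have hm2 : m ≤ t' := max_le h2 (by linarith)
        have hm3 : m - s' ≤ n * (δ / 2) := by
          push_cast at h4
          rcases max_choice s' (t' - δ / 2) with h | h
          · simp only [m, h]; rw [sub_self]; positivity
          · simp only [m, h]; linarith
        have hm4 : t' - m ≤ δ / 2 := by
          have := le_max_right s' (t' - δ / 2)
          simp only [m]; linarith
        have n1 := ih s' m h1 hm1 (hm2.trans h3) hm3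
        have hosc : ∀ τ ∈ Icc m t', dist (φ' (c τ)) (φ' (c m)) < η ∧
            dist (φ' (r (c τ))) (φ' (r (c m))) < η := by
          intro τ hτ
          have h5 := hδ' τ ⟨h1.trans (hm1.trans hτ.1), hτ.2.trans h3⟩ m
            ⟨h1.trans hm1, hm2.trans h3⟩ (by
              rw [Real.dist_eq, abs_of_nonneg (by linarith [hτ.1])]
              linarith [hτ.2])
          rw [Prod.dist_eq, max_lt_iff] at h5
          exact h5
        have hconv : ∀ x y : ℝ≥0, dist x y < η → (x : ℝ≥0∞) ≤ y + η ∧ (y : ℝ≥0∞) ≤ x + η := by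
          intro x y hxy
          rw [NNReal.dist_eq, abs_lt] at hxy
          constructor
          · have : x ≤ y + η := by rw [← NNReal.coe_le_coe]; push_cast; linarith
            exact_mod_cast this
          · have : y ≤ x + η := by rw [← NNReal.coe_le_coe]; push_cast; linarith
            exact_mod_cast this
        have n2 := local_near (φ := fun x => (φ' x : ℝ≥0∞)) hr hu hUG hc hm2 η
          (fun τ hτ => hconv _ _ (hosc τ hτ).1) (fun τ hτ => hconv _ _ (hosc τ hτ).2)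
        refine (n1.trans n2).mono ?_
        rw [lintegral_Ioc_split _ hm1 hm2]
        have : ENNReal.ofReal (t' - s') = ENNReal.ofReal (m - s') + ENNReal.ofReal (t' - m) := by
          rw [← ENNReal.ofReal_add (by linarith) (by linarith)]
          congr 1; ring
        rw [this, mul_add]
        exact le_of_eq (by ring)
    obtain ⟨n, hn⟩ := exists_nat_ge ((t - s) / (δ / 2))
    refine hstep n s t le_rfl hst le_rfl ?_
    rwa [div_le_iff₀ (by positivity)] at hn
  set I := ∫⁻ τ in Ioc s t, psi r f (fun x => (φ' x : ℝ≥0∞)) u (c τ)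
  have hfinal : ∀ x y : ℝ≥0∞, (∀ η : ℝ≥0, 0 < η → x ≤ y + (I + (η + η) * ENNReal.ofReal (t - s))) →
      x ≤ y + I := by
    intro x y h
    refine ENNReal.le_of_forall_pos_le_add fun ε hε _ => ?_
    have hL : (0 : ℝ) < 2 * (t - s + 1) := by linarith
    let η : ℝ≥0 := ε / Real.toNNReal (2 * (t - s + 1))
    have hη : 0 < η := by
      have : 0 < Real.toNNReal (2 * (t - s + 1)) := Real.toNNReal_pos.2 hL
      positivity
    refine (h η hη).trans ?_
    rw [← add_assoc]
    refine add_le_add le_rfl ?_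
    have h5 : (η + η) * Real.toNNReal (t - s) ≤ ε := by
      have hηe : (η : ℝ) = ε / (2 * (t - s + 1)) := by
        simp only [η, NNReal.coe_div, Real.coe_toNNReal _ hL.le]
      rw [← NNReal.coe_le_coe]
      push_cast
      rw [hηe, Real.coe_toNNReal _ (by linarith)]
      rw [← add_div, div_mul_eq_mul_div, div_le_iff₀ hL]
      have : (0 : ℝ) ≤ ε := ε.2
      nlinarith
    calc ((η : ℝ≥0∞) + η) * ENNReal.ofReal (t - s) = (((η + η) * Real.toNNReal (t - s) : ℝ≥0) : ℝ≥0∞) := by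
          push_cast; rfl
      _ ≤ ε := by exact_mod_cast h5
  exact ⟨hfinal _ _ fun η hη => (happ η hη).1, hfinal _ _ fun η hη => (happ η hη).2⟩

end Polar


section Radial

lemma lintegral_le_of_image {g : ℝ → ℝ} {S T : Set ℝ} (hS : MeasurableSet S)
    (hg : LipschitzOnWith 1 g S) (hT : T ⊆ g '' S) (f : ℝ → ℝ≥0∞) :
    ∫⁻ x in T, f x ≤ ∫⁻ τ in S, f (g τ) := by
  have hae : AEMeasurable g (volume.restrict S) := hg.continuousOn.aemeasurable hS
  have h1 : (volume : Measure ℝ).restrict T ≤ ((volume : Measure ℝ).restrict S).map g := by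
    refine Measure.le_iff.2 fun A hA => ?_
    rw [Measure.restrict_apply hA, Measure.map_apply_of_aemeasurable hae hA,
      Measure.restrict_apply' hS]
    have h2 : A ∩ T ⊆ g '' (g ⁻¹' A ∩ S) := by
      rintro x ⟨hx, hxT⟩
      obtain ⟨t, ht, rfl⟩ := hT hxT
      exact ⟨t, ⟨hx, ht⟩, rfl⟩
    have h3 := (hg.mono (inter_subset_right (s := g ⁻¹' A) (t := S))).hausdorffMeasure_image_le
      (d := 1) zero_le_one
    rw [hausdorffMeasure_real] at h3
    simp only [ENNReal.coe_one, ENNReal.one_rpow, one_mul] at h3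
    exact (measure_mono h2).trans h3
  exact (lintegral_mono' h1 le_rfl).trans (lintegral_map_le f g)

/-- Radial profile with divergent length and finite energy. -/
noncomputable def Hr (x : ℝ) : ℝ := ((1 + x) * (1 + Real.log (1 + x)))⁻¹

lemma Hr_den_pos {x : ℝ} (hx : 0 ≤ x) : 0 < (1 + x) * (1 + Real.log (1 + x)) := by
  have : 0 ≤ Real.log (1 + x) := Real.log_nonneg (by linarith)
  positivity

lemma Hr_pos {x : ℝ} (hx : 0 ≤ x) : 0 < Hr x := inv_pos.2 (Hr_den_pos hx)

lemma Hr_anti {x y : ℝ} (hx : 0 ≤ x) (hxy : x ≤ y) : Hr y ≤ Hr x := by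
  apply inv_anti₀ (Hr_den_pos hx)
  have h1 : 0 ≤ Real.log (1 + x) := Real.log_nonneg (by linarith)
  have h2 : Real.log (1 + x) ≤ Real.log (1 + y) := Real.log_le_log (by linarith) (by linarith)
  have h3 : 0 ≤ 1 + y := by linarith
  gcongr

lemma Hr_continuousOn : ContinuousOn Hr (Ici 0) := by
  refine ContinuousOn.inv₀ ?_ fun x hx => (Hr_den_pos hx).ne'
  refine ContinuousOn.mul (by fun_prop) ?_
  refine ContinuousOn.add continuousOn_const ?_
  refine ContinuousOn.log (by fun_prop) fun x hx => ?_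
  have : (0 : ℝ) ≤ x := hx
  positivity

lemma Hr_hasDerivAt {x : ℝ} (hx : 0 ≤ x) :
    HasDerivAt (fun x => Real.log (1 + Real.log (1 + x))) (Hr x) x := by
  have h0 : 0 ≤ Real.log (1 + x) := Real.log_nonneg (by linarith)
  have h1 : HasDerivAt (fun x : ℝ => 1 + x) 1 x := by
    simpa using (hasDerivAt_id x).const_add (1 : ℝ)
  have h2 : HasDerivAt (fun x : ℝ => 1 + Real.log (1 + x)) (1 / (1 + x)) x := by
    have := (h1.log (by positivity)).const_add (1 : ℝ)
    exact this
  have h3 := h2.log (by positivity)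
  convert h3 using 1
  rw [Hr, div_div, one_div]

lemma Hr_div {R₀ : ℝ} (hR₀ : 0 ≤ R₀) (M : ℝ) (hM : 0 ≤ M) :
    ∃ R, R₀ ≤ R ∧ ENNReal.ofReal M ≤ ∫⁻ x in Ioc R₀ R, ENNReal.ofReal (Hr x) := by
  let B := Real.log (1 + Real.log (1 + R₀))
  let R := Real.exp (Real.exp (M + B) - 1) - 1
  have h0 : 0 ≤ Real.log (1 + R₀) := Real.log_nonneg (by linarith)
  have hval : Real.log (1 + Real.log (1 + R)) = M + B := by
    simp only [R, add_sub_cancel, Real.log_exp]
  have hR : R₀ ≤ R := by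
    have h1 : Real.exp B = 1 + Real.log (1 + R₀) := Real.exp_log (by positivity)
    have h2 : Real.exp B ≤ Real.exp (M + B) := Real.exp_le_exp.2 (by linarith)
    have h3 : Real.exp (Real.log (1 + R₀)) ≤ Real.exp (Real.exp (M + B) - 1) :=
      Real.exp_le_exp.2 (by linarith)
    rw [Real.exp_log (by positivity)] at h3
    simp only [R]
    linarith
  refine ⟨R, hR, ?_⟩
  have hci : ContinuousOn Hr (uIcc R₀ R) := by
    rw [uIcc_of_le hR]
    exact Hr_continuousOn.mono fun x hx => hR₀.trans hx.1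
  have hint : ∫ x in R₀..R, Hr x = M := by
    rw [intervalIntegral.integral_eq_sub_of_hasDerivAt (f := fun x => Real.log (1 + Real.log (1 + x)))]
    · rw [hval]; simp only [B]; ring
    · intro x hx
      rw [uIcc_of_le hR] at hx
      exact Hr_hasDerivAt (hR₀.trans hx.1)
    · exact hci.intervalIntegrable
  rw [← hint, intervalIntegral.integral_of_le hR, ofReal_integral_eq_lintegral_ofReal]
  · have := hci.intervalIntegrable (μ := volume)
    rwa [intervalIntegrable_iff_integrableOn_Ioc_of_le hR] at this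
  · refine (ae_restrict_iff' measurableSet_Ioc).2 (Eventually.of_forall fun x hx => ?_)
    exact (Hr_pos (hR₀.trans hx.1.le)).le

variable {V : Type*} [NormedAddCommGroup V] [NormedSpace ℝ V]

/-- The radial function on the space. -/
noncomputable def hfun (x : V) : ℝ≥0 := Real.toNNReal (Hr ‖x‖)

lemma hfun_continuous : Continuous (hfun : V → ℝ≥0) := by
  refine continuous_real_toNNReal.comp ?_
  exact Hr_continuousOn.comp_continuous continuous_norm fun x => norm_nonneg x

lemma hfun_length {c : ℝ → V} (hc : LipschitzWith 1 c) {ℓ R₀ R : ℝ} (hℓ : 0 ≤ ℓ)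
    (h0 : ‖c 0‖ ≤ R₀) (hR : R ≤ ‖c ℓ‖) :
    ∫⁻ x in Ioc R₀ R, ENNReal.ofReal (Hr x) ≤ ∫⁻ τ in Ioc 0 ℓ, (hfun (c τ) : ℝ≥0∞) := by
  have hg : LipschitzWith 1 fun τ => ‖c τ‖ := by
    have := lipschitzWith_one_norm (E := V)
    have h2 := this.comp hc
    rwa [one_mul] at h2
  have key := lintegral_le_of_image (g := fun τ => ‖c τ‖) (T := Ioc R₀ R)
    (measurableSet_Icc (a := 0) (b := ℓ)) hg.lipschitzOnWith
    (by
      intro x hx
      have := intermediate_value_Icc hℓ hg.continuous.continuousOn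
      exact this ⟨h0.trans hx.1.le, hx.2.trans hR⟩) (fun x => ENNReal.ofReal (Hr x))
  rw [← setLIntegral_congr (Ioc_ae_eq_Icc (μ := (volume : Measure ℝ)))] at key
  exact key

end Radial

section Lsc
variable {V : Type*} [PseudoEMetricSpace V]

/-- Lipschitz regularization of a lower semicontinuous function. -/
noncomputable def reg (G : V → ℝ≥0∞) (k : ℕ) (x : V) : ℝ≥0∞ :=
  ⨅ y, (min (G y) k + k * edist x y)

lemma reg_le (G : V → ℝ≥0∞) (k : ℕ) (x : V) : reg G k x ≤ min (G x) k := by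
  refine (iInf_le _ x).trans ?_
  simp

lemma reg_ne_top (G : V → ℝ≥0∞) (k : ℕ) (x : V) : reg G k x ≠ ⊤ :=
  ne_top_of_le_ne_top (ENNReal.natCast_ne_top k) ((reg_le G k x).trans (min_le_right _ _))

lemma reg_continuous (G : V → ℝ≥0∞) (k : ℕ) : Continuous (reg G k) := by
  refine continuous_of_le_add_edist k (ENNReal.natCast_ne_top k) fun x y => ?_
  rw [reg, reg, ENNReal.iInf_add]
  refine le_iInf fun z => (iInf_le _ z).trans ?_
  calc min (G z) k + k * edist x z ≤ min (G z) k + k * (edist x y + edist y z) := by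
        gcongr; exact edist_triangle _ _ _
    _ = _ := by ring

lemma reg_mono (G : V → ℝ≥0∞) (x : V) {j k : ℕ} (hjk : j ≤ k) : reg G j x ≤ reg G k x := by
  refine iInf_mono fun y => ?_
  have : (j : ℝ≥0∞) ≤ k := by exact_mod_cast hjk
  gcongr

lemma iSup_reg {G : V → ℝ≥0∞} (hG : LowerSemicontinuous G) (x : V) : ⨆ k, reg G k x = G x := by
  refine le_antisymm (iSup_le fun k => (reg_le G k x).trans (min_le_left _ _)) ?_
  refine le_of_forall_lt fun a ha => ?_
  obtain ⟨b, hab, hb⟩ := exists_between ha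
  have hbt : b ≠ ⊤ := (hb.trans_le le_top).ne
  obtain ⟨δ, hδ, hδ'⟩ := EMetric.mem_nhds_iff.1 (hG x b hb)
  obtain ⟨k, hk⟩ : ∃ k : ℕ, b ≤ k ∧ b ≤ k * δ := by
    rcases eq_or_ne δ ⊤ with rfl | hδt
    · obtain ⟨k, hk⟩ := ENNReal.exists_nat_gt hbt
      refine ⟨k + 1, hk.le.trans (by push_cast; exact le_self_add), ?_⟩
      rw [ENNReal.mul_top (by positivity)]
      exact le_top
    · have h1 : b / δ ≠ ⊤ := ENNReal.div_ne_top hbt hδ.ne'
      obtain ⟨k, hk⟩ := ENNReal.exists_nat_gt (r := max b (b / δ)) (by simp [hbt, h1])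
      rw [max_lt_iff] at hk
      refine ⟨k, hk.1.le, ?_⟩
      exact (ENNReal.div_le_iff_le_mul (Or.inl hδ.ne') (Or.inl hδt)).1 hk.2.le
  refine hab.trans_le (le_iSup_of_le k ?_)
  refine le_iInf fun y => ?_
  by_cases hy : edist x y < δ
  · have h2 : b < G y := hδ' (by rw [Metric.mem_eball, edist_comm]; exact hy)
    exact (le_min h2.le hk.1).trans le_self_add
  · exact hk.2.trans ((mul_le_mul_right (not_lt.1 hy) _).trans le_add_self)

end Lsc


section Compactness
variable {V : Type*} [NormedAddCommGroup V] [NormedSpace ℝ V] [ProperSpace V]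
  [MeasurableSpace V] [BorelSpace V]

open scoped BoundedContinuousFunction

/-- The regularized metric. -/
noncomputable def phik (G : V → ℝ≥0∞) (e : ℝ≥0) (k : ℕ) (x : V) : ℝ≥0 :=
  (reg G k x).toNNReal + e * hfun x

lemma phik_coe (G : V → ℝ≥0∞) (e : ℝ≥0) (k : ℕ) (x : V) :
    (phik G e k x : ℝ≥0∞) = reg G k x + e * hfun x := by
  simp [phik, ENNReal.coe_toNNReal (reg_ne_top G k x)]

lemma phik_continuous (G : V → ℝ≥0∞) (e : ℝ≥0) (k : ℕ) : Continuous (phik G e k) := by
  refine Continuous.add ?_ (continuous_const.mul hfun_continuous)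
  exact ENNReal.continuousOn_toNNReal.comp_continuous (reg_continuous G k)
    fun x => reg_ne_top G k x

lemma exists_phik {G : V → ℝ≥0∞} (hG : LowerSemicontinuous G) {A B : Set V} (hA : IsCompact A)
    (hB : IsCompact B) {e : ℝ≥0} (he : 0 < e) {θ : ℝ≥0∞} (hθ : θ < 1)
    (hadm : ∀ (c : ℝ → V) (ℓ : ℝ), LipschitzWith 1 c → 0 ≤ ℓ → c 0 ∈ A → c ℓ ∈ B →
      1 ≤ ∫⁻ τ in Ioc 0 ℓ, G (c τ)) :
    ∃ k, ∀ (c : ℝ → V) (ℓ : ℝ), LipschitzWith 1 c → 0 ≤ ℓ → c 0 ∈ A → c ℓ ∈ B →
      θ ≤ ∫⁻ τ in Ioc 0 ℓ, (phik G e k (c τ) : ℝ≥0∞) := by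
  by_contra hcon
  push Not at hcon
  choose c ℓ hc hℓ hcA hcB hint using hcon
  -- bounds
  obtain ⟨R₀, hR₀⟩ := hA.isBounded.exists_norm_le
  have hR₀' : 0 ≤ R₀ := (norm_nonneg _).trans (hR₀ _ (hcA 0))
  obtain ⟨R, hRR, hR⟩ := Hr_div hR₀' (1 / e) (by positivity)
  have hRnn : 0 ≤ R := hR₀'.trans hRR
  have hlow : ∀ k x, (e : ℝ≥0∞) * hfun x ≤ phik G e k x := fun k x => by
    rw [phik_coe]; exact le_add_self
  have hbd : ∀ k, ∀ τ ∈ Icc 0 (ℓ k), ‖c k τ‖ ≤ R := by
    intro k τ hτ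
    by_contra hlt
    push Not at hlt
    have h1 := hfun_length (hc k) hτ.1 (hR₀ _ (hcA k)) hlt.le
    have h2 : (1 : ℝ≥0∞) ≤ ∫⁻ τ in Ioc 0 (ℓ k), (phik G e k (c k τ) : ℝ≥0∞) := by
      calc (1 : ℝ≥0∞) = e * ENNReal.ofReal (1 / e) := by
            rw [one_div, ENNReal.ofReal_inv_of_pos (by exact_mod_cast he)]
            simp only [ENNReal.ofReal_coe_nnreal]
            rw [ENNReal.mul_inv_cancel (by exact_mod_cast he.ne') ENNReal.coe_ne_top]
        _ ≤ e * ∫⁻ τ in Ioc 0 τ, (hfun (c k τ) : ℝ≥0∞) := by gcongr; exact hR.trans h1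
        _ = ∫⁻ τ in Ioc 0 τ, (e : ℝ≥0∞) * (hfun (c k τ) : ℝ≥0∞) := by
            rw [lintegral_const_mul' _ _ ENNReal.coe_ne_top]
        _ ≤ ∫⁻ τ in Ioc 0 τ, (phik G e k (c k τ) : ℝ≥0∞) := lintegral_mono fun τ => hlow k _
        _ ≤ _ := lintegral_mono_set (Ioc_subset_Ioc_right hτ.2)
    exact absurd (h2.trans_lt (hint k)) (not_lt.2 hθ.le)
  obtain ⟨L, hL0, hL⟩ : ∃ L : ℝ, 0 ≤ L ∧ ∀ k, ℓ k ≤ L := by
    have hpos : 0 < (e : ℝ) * Hr R := mul_pos (by exact_mod_cast he) (Hr_pos hRnn)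
    refine ⟨1 / (e * Hr R), by positivity, fun k => ?_⟩
    have h1 : ENNReal.ofReal (e * Hr R * ℓ k) ≤ 1 := by
      calc ENNReal.ofReal (e * Hr R * ℓ k) = ∫⁻ τ in Ioc 0 (ℓ k), ENNReal.ofReal (e * Hr R) := by
            rw [setLIntegral_const, Real.volume_Ioc, sub_zero, ← ENNReal.ofReal_mul hpos.le]
        _ ≤ ∫⁻ τ in Ioc 0 (ℓ k), (phik G e k (c k τ) : ℝ≥0∞) := by
            refine setLIntegral_mono' measurableSet_Ioc fun τ hτ => ?_
            refine le_trans ?_ (hlow k _)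
            rw [ENNReal.ofReal_mul (p := (e : ℝ)) e.2, ENNReal.ofReal_coe_nnreal]
            gcongr
            rw [hfun, ← ENNReal.ofReal]
            exact ENNReal.ofReal_le_ofReal (Hr_anti (norm_nonneg _) (hbd k τ ⟨hτ.1.le, hτ.2⟩))
        _ ≤ 1 := (hint k).le.trans hθ.le
    rw [ENNReal.ofReal_le_one] at h1
    rw [le_div_iff₀ hpos]
    linarith
  -- the compact space of curves
  let X := Icc (0 : ℝ) L
  have : Nonempty X := ⟨⟨0, le_rfl, hL0⟩⟩
  let 𝒜 : Set (X →ᵇ V) := {f | (∀ x y : X, dist (f x) (f y) ≤ dist x y) ∧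
    ∀ x : X, f x ∈ Metric.closedBall (0 : V) R}
  have h𝒜 : IsCompact 𝒜 := by
    refine BoundedContinuousFunction.arzela_ascoli₂ (Metric.closedBall (0 : V) R)
      (isCompact_closedBall _ _) 𝒜 ?_ (fun f x hf => hf.2 x) ?_
    · have e1 : 𝒜 = (⋂ x : X, ⋂ y : X, {f : X →ᵇ V | dist (f x) (f y) ≤ dist x y}) ∩
          ⋂ x : X, {f : X →ᵇ V | f x ∈ Metric.closedBall (0 : V) R} := by
        ext f; simp [𝒜]
      rw [e1]
      refine IsClosed.inter (isClosed_iInter fun x => isClosed_iInter fun y => ?_)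
        (isClosed_iInter fun x => ?_)
      · exact isClosed_le ((continuous_eval_const (F := X →ᵇ V) x).dist
          (continuous_eval_const (F := X →ᵇ V) y)) continuous_const
      · exact Metric.isClosed_closedBall.preimage
          (continuous_eval_const (F := X →ᵇ V) x)
    · refine UniformEquicontinuous.equicontinuous ?_
      refine LipschitzWith.uniformEquicontinuous _ 1 fun f => ?_
      refine LipschitzWith.of_dist_le_mul fun x y => ?_
      simpa using f.2.1 x y
  -- the truncated curves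
  have hlipk : ∀ k, LipschitzWith 1 (fun τ : ℝ => c k (max 0 (min τ (ℓ k)))) := by
    intro k
    have h1 : LipschitzWith 1 (fun τ : ℝ => max 0 (min τ (ℓ k))) := by
      have h2 : LipschitzWith 1 (fun τ : ℝ => min τ (ℓ k)) := LipschitzWith.id.min_const _
      exact h2.const_max 0
    have := (hc k).comp h1
    rwa [one_mul] at this
  let F : ℕ → (X →ᵇ V) := fun k =>
    BoundedContinuousFunction.mkOfCompact ⟨fun x : X => c k (max 0 (min (x : ℝ) (ℓ k))),
      (hlipk k).continuous.comp continuous_subtype_val⟩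
  have hFapp : ∀ k (x : X), F k x = c k (max 0 (min (x : ℝ) (ℓ k))) := fun k x => rfl
  have hF𝒜 : ∀ k, F k ∈ 𝒜 := by
    intro k
    refine ⟨fun x y => ?_, fun x => ?_⟩
    · rw [hFapp, hFapp]
      have := (hlipk k).dist_le_mul x y
      rwa [NNReal.coe_one, one_mul] at this
    · rw [hFapp, mem_closedBall_zero_iff]
      exact hbd k _ ⟨le_max_left _ _, max_le (hℓ k) (min_le_right _ _)⟩
  let Λ : ℕ → X := fun k => ⟨ℓ k, hℓ k, hL k⟩
  obtain ⟨⟨f, lam⟩, hmem, φ, hφ, hlim⟩ := (h𝒜.prod (isCompact_univ (X := X))).tendsto_subseq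
    (x := fun k => (F k, Λ k)) (fun k => ⟨hF𝒜 k, mem_univ _⟩)
  have hlimF : Tendsto (fun k => F (φ k)) atTop (𝓝 f) := (continuous_fst.tendsto _).comp hlim
  have hlimΛ : Tendsto (fun k => Λ (φ k)) atTop (𝓝 lam) := (continuous_snd.tendsto _).comp hlim
  have hlimℓ : Tendsto (fun k => ℓ (φ k)) atTop (𝓝 (lam : ℝ)) :=
    (continuous_subtype_val.tendsto _).comp hlimΛ
  have hf𝒜 : f ∈ 𝒜 := hmem.1
  -- the limit curve
  let d : ℝ → V := fun τ => f (projIcc 0 L hL0 τ)
  have hd : LipschitzWith 1 d := by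
    refine LipschitzWith.of_dist_le_mul fun x y => ?_
    refine (hf𝒜.1 _ _).trans ?_
    have := (LipschitzWith.projIcc hL0).dist_le_mul x y
    exact this
  have hdF : ∀ x : X, d x = f x := fun x => by
    simp only [d]; rw [projIcc_val]
  have hpt : ∀ x : X, Tendsto (fun k => F (φ k) x) atTop (𝓝 (d x)) := by
    intro x
    rw [hdF]
    exact ((continuous_eval_const (F := X →ᵇ V) x).tendsto f).comp hlimF
  have hd0 : d 0 ∈ A := by
    have h1 := hpt ⟨0, le_rfl, hL0⟩
    have h2 : ∀ k, F (φ k) ⟨0, le_rfl, hL0⟩ = c (φ k) 0 := by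
      intro k; rw [hFapp]; simp [hℓ (φ k)]
    refine hA.isClosed.mem_of_tendsto h1 (Eventually.of_forall fun k => ?_)
    rw [h2]; exact hcA _
  have hdℓ : d lam ∈ B := by
    have h1 : Tendsto (fun k => F (φ k) (Λ (φ k))) atTop (𝓝 (d lam)) := by
      rw [hdF]
      have := (continuous_eval (F := X →ᵇ V)).tendsto (f, lam)
      exact this.comp hlim
    refine hB.isClosed.mem_of_tendsto h1 (Eventually.of_forall fun k => ?_)
    have : F (φ k) (Λ (φ k)) = c (φ k) (ℓ (φ k)) := by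
      rw [hFapp]; simp [Λ, hℓ (φ k)]
    rw [this]; exact hcB _
  have h1 := hadm d lam hd lam.2.1 hd0 hdℓ
  -- Fatou
  let J : ℕ → ℝ → ℝ≥0∞ := fun k τ =>
    (Ioc 0 (ℓ (φ k))).indicator (fun τ => reg G (φ k) (c (φ k) τ)) τ
  have hJm : ∀ k, Measurable (J k) := fun k =>
    ((reg_continuous G (φ k)).comp (hc (φ k)).continuous).measurable.indicator measurableSet_Ioc
  have hJint : ∀ k, ∫⁻ τ in Ioo 0 (lam : ℝ), J k τ ≤ θ := by
    intro k
    calc ∫⁻ τ in Ioo 0 (lam : ℝ), J k τ ≤ ∫⁻ τ, J k τ := setLIntegral_le_lintegral _ _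
      _ = ∫⁻ τ in Ioc 0 (ℓ (φ k)), reg G (φ k) (c (φ k) τ) := by
          rw [lintegral_indicator measurableSet_Ioc]
      _ ≤ ∫⁻ τ in Ioc 0 (ℓ (φ k)), (phik G e (φ k) (c (φ k) τ) : ℝ≥0∞) := by
          refine lintegral_mono fun τ => ?_
          rw [phik_coe]; exact le_self_add
      _ ≤ θ := (hint _).le
  have hliminf : ∀ τ ∈ Ioo 0 (lam : ℝ), G (d τ) ≤ liminf (fun k => J k τ) atTop := by
    intro τ hτ
    rw [← iSup_reg hG]
    refine iSup_le fun j => ?_
    let x : X := ⟨τ, hτ.1.le, hτ.2.le.trans lam.2.2⟩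
    have h2 : Tendsto (fun k => reg G j (F (φ k) x)) atTop (𝓝 (reg G j (d τ))) :=
      ((reg_continuous G j).tendsto _).comp (hpt x)
    rw [← h2.liminf_eq]
    refine liminf_le_liminf ?_
    have h3 : ∀ᶠ k in atTop, τ < ℓ (φ k) := hlimℓ.eventually (lt_mem_nhds hτ.2)
    filter_upwards [h3, eventually_ge_atTop j] with k hk hjk
    have h4 : F (φ k) x = c (φ k) τ := by
      rw [hFapp]
      simp only [x]
      rw [min_eq_left hk.le, max_eq_right hτ.1.le]
    have h5' : τ ∈ Ioc 0 (ℓ (φ k)) := ⟨hτ.1, hk.le⟩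
    have h5 : J k τ = reg G (φ k) (c (φ k) τ) := indicator_of_mem h5' _
    rw [h4, h5]
    exact reg_mono G _ (hjk.trans (hφ.id_le k))
  have h2 : ∫⁻ τ in Ioc 0 (lam : ℝ), G (d τ) ≤ θ := by
    rw [← setLIntegral_congr (Ioo_ae_eq_Ioc (μ := (volume : Measure ℝ)))]
    calc ∫⁻ τ in Ioo 0 (lam : ℝ), G (d τ) ≤ ∫⁻ τ in Ioo 0 (lam : ℝ), liminf (fun k => J k τ) atTop :=
          setLIntegral_mono' measurableSet_Ioo hliminf
      _ ≤ liminf (fun k => ∫⁻ τ in Ioo 0 (lam : ℝ), J k τ) atTop := lintegral_liminf_le hJm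
      _ ≤ liminf (fun _ => θ) atTop := liminf_le_liminf (Eventually.of_forall hJint)
      _ = θ := by simp
  exact absurd (h1.trans h2) (not_le.2 hθ)

end Compactness


section Energy

lemma hfun_energy {n : ℕ} (hn : 2 ≤ n) :
    ∫⁻ x : EuclideanSpace ℝ (Fin n), (hfun x : ℝ≥0∞) ^ n ≠ ⊤ := by
  have : Nontrivial (EuclideanSpace ℝ (Fin n)) := by
    have : Nonempty (Fin n) := ⟨⟨0, by omega⟩⟩
    infer_instance
  have hK : IntegrableOn (fun y : ℝ => ((1 + y) * (1 + Real.log (1 + y)) ^ 2)⁻¹) (Ioi 0) := by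
    refine integrableOn_Ioi_deriv_of_nonneg' (g := fun y => -(1 + Real.log (1 + y))⁻¹) (l := 0)
      ?_ ?_ ?_
    · intro x hx
      have hx' : (0 : ℝ) ≤ x := hx
      have h0 : 0 ≤ Real.log (1 + x) := Real.log_nonneg (by linarith)
      have h1 : HasDerivAt (fun x : ℝ => 1 + x) 1 x := by
        simpa using (hasDerivAt_id x).const_add (1 : ℝ)
      have h2 : HasDerivAt (fun x : ℝ => 1 + Real.log (1 + x)) (1 / (1 + x)) x :=
        (h1.log (by positivity)).const_add (1 : ℝ)
      have h3 := (h2.inv (by positivity)).neg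
      have e : ((1 + x) * (1 + Real.log (1 + x)) ^ 2)⁻¹ =
          -(-(1 / (1 + x)) / (1 + Real.log (1 + x)) ^ 2) := by
        rw [neg_div, neg_neg, div_div, one_div]
      rw [e]
      exact h3
    · intro x hx
      have hx' : (0 : ℝ) < x := hx
      have h0 : 0 ≤ Real.log (1 + x) := Real.log_nonneg (by linarith)
      positivity
    · have h1 : Tendsto (fun y : ℝ => 1 + Real.log (1 + y)) atTop atTop :=
        tendsto_atTop_add_const_left _ _
          (Real.tendsto_log_atTop.comp (tendsto_atTop_add_const_left _ _ tendsto_id))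
      have h2 := (tendsto_inv_atTop_zero.comp h1).neg
      rw [neg_zero] at h2
      exact h2
  have hint : Integrable (fun x : EuclideanSpace ℝ (Fin n) => (Hr ‖x‖) ^ n) volume := by
    rw [integrable_fun_norm_addHaar volume (f := fun y => (Hr y) ^ n)]
    rw [finrank_euclideanSpace_fin]
    refine Integrable.mono' hK ?_ ?_
    · refine ContinuousOn.aestronglyMeasurable ?_ measurableSet_Ioi
      exact ContinuousOn.smul (f := fun y : ℝ => y ^ (n - 1)) (by fun_prop)
        ((Hr_continuousOn.mono Ioi_subset_Ici_self).pow n)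
    · refine (ae_restrict_iff' measurableSet_Ioi).2 (Eventually.of_forall fun y hy => ?_)
      have hy' : (0 : ℝ) < y := hy
      have h0 : 0 ≤ Real.log (1 + y) := Real.log_nonneg (by linarith)
      have hH := Hr_pos hy'.le
      rw [smul_eq_mul, Real.norm_of_nonneg (by positivity)]
      obtain ⟨m, rfl⟩ : ∃ m, n = m + 2 := ⟨n - 2, by omega⟩
      have e1 : m + 2 - 1 = m + 1 := by omega
      rw [e1]
      have h1 : y * Hr y ≤ 1 := by
        rw [Hr, ← div_eq_mul_inv, div_le_one (Hr_den_pos hy'.le)]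
        nlinarith
      have h2 : (y * Hr y) ^ m ≤ 1 := pow_le_one₀ (by positivity) h1
      have h3 : y * Hr y * Hr y ≤ ((1 + y) * (1 + Real.log (1 + y)) ^ 2)⁻¹ := by
        rw [Hr, ← div_eq_mul_inv, ← div_eq_mul_inv, div_div, inv_eq_one_div,
          div_le_div_iff₀ (by positivity) (by positivity)]
        have h4 : 0 ≤ (1 + y) * (1 + Real.log (1 + y)) ^ 2 := by positivity
        nlinarith
      calc y ^ (m + 1) * Hr y ^ (m + 2) = (y * Hr y) ^ m * (y * Hr y * Hr y) := by ring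
        _ ≤ 1 * (y * Hr y * Hr y) := by gcongr
        _ ≤ _ := by rw [one_mul]; exact h3
  have h5 : ∫⁻ x : EuclideanSpace ℝ (Fin n), (hfun x : ℝ≥0∞) ^ n =
      ∫⁻ x : EuclideanSpace ℝ (Fin n), ENNReal.ofReal ((Hr ‖x‖) ^ n) := by
    refine lintegral_congr fun x => ?_
    rw [ENNReal.ofReal_pow (Hr_pos (norm_nonneg x)).le]
    rfl
  rw [h5]
  exact hint.lintegral_lt_top.ne

end Energy

section Natural
variable {V : Type*} [NormedAddCommGroup V] [NormedSpace ℝ V]

/-- Integral along a rectifiable curve through its arc length parametrization. -/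
noncomputable def arcIntegral (ρ : V → ℝ≥0∞) (c : ℝ → V) (s t : ℝ) : ℝ≥0∞ :=
  ∫⁻ u in Icc 0 (eVariationOn c (Icc s t)).toReal, ρ (naturalParameterization c (Icc s t) s u)

variable {c : ℝ → V} {s t : ℝ}

lemma var_s (c : ℝ → V) (s t : ℝ) : variationOnFromTo c (Icc s t) s s = 0 :=
  variationOnFromTo.self _ _ _

lemma var_t (c : ℝ → V) (hst : s ≤ t) :
    variationOnFromTo c (Icc s t) s t = (eVariationOn c (Icc s t)).toReal := by
  rw [variationOnFromTo.eq_of_le _ _ hst, inter_self]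

/-- Continuity of the arc length function. -/
lemma var_continuousOn (hbv : eVariationOn c (Icc s t) ≠ ⊤)
    (hc : ContinuousOn c (Icc s t)) : ContinuousOn (variationOnFromTo c (Icc s t) s) (Icc s t) := by
  intro x hx
  have hbv' : BoundedVariationOn c (Icc s t) := hbv
  have hloc : LocallyBoundedVariationOn c (Icc s t) := hbv'.locallyBoundedVariationOn
  have hs : s ∈ Icc s t := ⟨le_rfl, hx.1.trans hx.2⟩
  have hl := hbv'.tendsto_eVariationOn_Icc_zero_left ((hc x hx).mono inter_subset_left)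
  have hr := hbv'.tendsto_eVariationOn_Icc_zero_right x ((hc x hx).mono inter_subset_left)
  have hlr := (ENNReal.tendsto_toReal ENNReal.zero_ne_top).comp hl
  have hrr := (ENNReal.tendsto_toReal ENNReal.zero_ne_top).comp hr
  rw [ENNReal.toReal_zero] at hlr hrr
  have hsum := hlr.add hrr
  rw [add_zero] at hsum
  rw [ContinuousWithinAt, tendsto_iff_dist_tendsto_zero]
  refine squeeze_zero' (Eventually.of_forall fun _ => dist_nonneg) ?_ hsum
  filter_upwards [self_mem_nhdsWithin] with y hy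
  rw [Real.dist_eq]
  have hnn1 : 0 ≤ (ENNReal.toReal ∘ fun y => eVariationOn c (Icc s t ∩ Icc y x)) y :=
    ENNReal.toReal_nonneg
  have hnn2 : 0 ≤ (ENNReal.toReal ∘ fun y => eVariationOn c (Icc s t ∩ Icc x y)) y :=
    ENNReal.toReal_nonneg
  rcases le_total x y with hxy | hxy
  · have h1 := variationOnFromTo.add hloc hs hx hy
    have h2 : variationOnFromTo c (Icc s t) x y =
        (eVariationOn c (Icc s t ∩ Icc x y)).toReal := variationOnFromTo.eq_of_le _ _ hxy
    have h3 : |variationOnFromTo c (Icc s t) s y - variationOnFromTo c (Icc s t) s x| =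
        (eVariationOn c (Icc s t ∩ Icc x y)).toReal := by
      rw [← h1, add_sub_cancel_left, h2, abs_of_nonneg ENNReal.toReal_nonneg]
    rw [h3]
    simp only [Function.comp] at hnn1 ⊢
    linarith
  · have h1 := variationOnFromTo.add hloc hs hy hx
    have h2 : variationOnFromTo c (Icc s t) y x =
        (eVariationOn c (Icc s t ∩ Icc y x)).toReal := variationOnFromTo.eq_of_le _ _ hxy
    have h3 : |variationOnFromTo c (Icc s t) s y - variationOnFromTo c (Icc s t) s x| =
        (eVariationOn c (Icc s t ∩ Icc y x)).toReal := by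
      rw [← h1, abs_sub_comm, add_sub_cancel_left, h2, abs_of_nonneg ENNReal.toReal_nonneg]
    rw [h3]
    simp only [Function.comp] at hnn2 ⊢
    linarith

lemma var_image (hst : s ≤ t) (hbv : eVariationOn c (Icc s t) ≠ ⊤)
    (hc : ContinuousOn c (Icc s t)) :
    Icc 0 (eVariationOn c (Icc s t)).toReal ⊆ variationOnFromTo c (Icc s t) s '' Icc s t := by
  have := intermediate_value_Icc hst (var_continuousOn hbv hc)
  rwa [var_s, var_t c hst] at this

/-- The arc integral is at most the parametric integral for a 1-Lipschitz parametrization. -/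
lemma arcIntegral_le (ρ : V → ℝ≥0∞) (hst : s ≤ t) (hc : LipschitzOnWith 1 c (Icc s t)) :
    arcIntegral ρ c s t ≤ ∫⁻ τ in Icc s t, ρ (c τ) := by
  have hloc : LocallyBoundedVariationOn c (Icc s t) := hc.locallyBoundedVariationOn
  have hs : s ∈ Icc s t := ⟨le_rfl, hst⟩
  have ht : t ∈ Icc s t := ⟨hst, le_rfl⟩
  have hbv : eVariationOn c (Icc s t) ≠ ⊤ := by
    have := hloc s t hs ht
    rwa [inter_self] at this
  have hlip : LipschitzOnWith 1 (variationOnFromTo c (Icc s t) s) (Icc s t) := by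
    refine LipschitzOnWith.of_le_add_mul 1 fun x hx y hy => ?_
    rw [NNReal.coe_one, one_mul]
    rcases le_total x y with hxy | hxy
    · have h1 := variationOnFromTo.monotoneOn hloc hs hx hy hxy
      linarith [dist_nonneg (x := x) (y := y)]
    · have h1 := variationOnFromTo.add hloc hs hy hx
      have h2 : variationOnFromTo c (Icc s t) y x =
        (eVariationOn c (Icc s t ∩ Icc y x)).toReal := variationOnFromTo.eq_of_le _ _ hxy
      have h3 : eVariationOn c (Icc s t ∩ Icc y x) ≤ ENNReal.ofReal (x - y) := by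
        refine iSup_le fun p => ?_
        obtain ⟨n, u, hu, hus⟩ := p
        simp only
        calc ∑ i ∈ Finset.range n, edist (c (u (i + 1))) (c (u i)) ≤
            ∑ i ∈ Finset.range n, ENNReal.ofReal (u (i + 1) - u i) := by
              refine Finset.sum_le_sum fun i _ => ?_
              have h4 := hc (hus (i + 1)).1 (hus i).1
              rw [ENNReal.coe_one, one_mul, edist_dist (u (i + 1)), Real.dist_eq,
                abs_of_nonneg (sub_nonneg.2 (hu (Nat.le_succ i)))] at h4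
              exact h4
          _ = ENNReal.ofReal (∑ i ∈ Finset.range n, (u (i + 1) - u i)) := by
              rw [ENNReal.ofReal_sum_of_nonneg]
              exact fun i _ => sub_nonneg.2 (hu (Nat.le_succ i))
          _ = ENNReal.ofReal (u n - u 0) := by rw [Finset.sum_range_sub]
          _ ≤ ENNReal.ofReal (x - y) := by
              apply ENNReal.ofReal_le_ofReal
              have h5 := (hus n).2.2
              have h6 := (hus 0).2.1
              linarith
      have h4 : (eVariationOn c (Icc s t ∩ Icc y x)).toReal ≤ x - y :=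
        ENNReal.toReal_le_of_le_ofReal (by linarith) h3
      rw [Real.dist_eq, abs_of_nonneg (by linarith)]
      linarith
  refine (lintegral_le_of_image measurableSet_Icc hlip
    (var_image hst hbv hc.continuousOn) _).trans (le_of_eq ?_)
  refine setLIntegral_congr_fun measurableSet_Icc fun τ hτ => ?_
  rw [edist_eq_zero.1 (edist_naturalParameterization_eq_zero hloc hs hτ)]

/-- The arc length parametrization as a globally 1-Lipschitz curve. -/
lemma exists_arc (hst : s ≤ t) (hbv : eVariationOn c (Icc s t) ≠ ⊤)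
    (hc : ContinuousOn c (Icc s t)) :
    ∃ (d : ℝ → V) (ℓ : ℝ), LipschitzWith 1 d ∧ 0 ≤ ℓ ∧ d 0 = c s ∧ d ℓ = c t ∧
      ∀ ρ : V → ℝ≥0∞, arcIntegral ρ c s t = ∫⁻ u in Ioc 0 ℓ, ρ (d u) := by
  have hbv' : BoundedVariationOn c (Icc s t) := hbv
  have hloc : LocallyBoundedVariationOn c (Icc s t) := hbv'.locallyBoundedVariationOn
  have hs : s ∈ Icc s t := ⟨le_rfl, hst⟩
  have ht : t ∈ Icc s t := ⟨hst, le_rfl⟩
  set L := (eVariationOn c (Icc s t)).toReal with hL
  have hL0 : 0 ≤ L := ENNReal.toReal_nonneg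
  let N := naturalParameterization c (Icc s t) s
  have hunit := has_unit_speed_naturalParameterization c hloc hs
  have himg := var_image hst hbv hc
  have hNlip : ∀ x ∈ Icc 0 L, ∀ y ∈ Icc 0 L, x ≤ y → dist (N x) (N y) ≤ y - x := by
    intro x hx y hy hxy
    have h1 := hunit (himg hx) (himg hy)
    have h2 : edist (N x) (N y) ≤ ENNReal.ofReal (y - x) := by
      refine (eVariationOn.edist_le N (s := variationOnFromTo c (Icc s t) s '' Icc s t ∩ Icc x y)
        ⟨himg hx, le_rfl, hxy⟩ ⟨himg hy, hxy, le_rfl⟩).trans ?_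
      rw [h1, NNReal.coe_one, one_mul]
    rw [edist_dist] at h2
    exact (ENNReal.ofReal_le_ofReal_iff (by linarith)).1 h2
  let d : ℝ → V := fun u => N (projIcc 0 L hL0 u)
  have hd : LipschitzWith 1 d := by
    refine LipschitzWith.of_dist_le_mul fun x y => ?_
    have h1 := (LipschitzWith.projIcc hL0).dist_le_mul x y
    refine le_trans ?_ h1
    rw [Subtype.dist_eq, Real.dist_eq]
    rcases le_total (projIcc 0 L hL0 x : ℝ) (projIcc 0 L hL0 y) with h | h
    · refine (hNlip _ (projIcc 0 L hL0 x).2 _ (projIcc 0 L hL0 y).2 h).trans ?_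
      rw [abs_sub_comm]; exact le_abs_self _
    · rw [show d x = N (projIcc 0 L hL0 x) from rfl, show d y = N (projIcc 0 L hL0 y) from rfl,
        dist_comm]
      exact (hNlip _ (projIcc 0 L hL0 y).2 _ (projIcc 0 L hL0 x).2 h).trans (le_abs_self _)
  refine ⟨d, L, hd, hL0, ?_, ?_, ?_⟩
  · have h1 := edist_eq_zero.1 (edist_naturalParameterization_eq_zero hloc hs hs)
    rw [var_s] at h1
    simp only [d, projIcc_left]
    exact h1
  · have h1 := edist_eq_zero.1 (edist_naturalParameterization_eq_zero hloc hs ht)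
    rw [var_t c hst] at h1
    simp only [d, projIcc_right]
    exact h1
  · intro ρ
    rw [arcIntegral, setLIntegral_congr (Ioc_ae_eq_Icc (μ := (volume : Measure ℝ))).symm]
    refine setLIntegral_congr_fun measurableSet_Ioc fun u hu => ?_
    simp only [d]
    rw [projIcc_of_mem hL0 (Ioc_subset_Icc_self hu)]

end Natural


section Main
variable {n : ℕ}

/-- The reflection changing the sign of the `i`-th coordinate. -/
noncomputable def reflect (i : Fin n) (x : EuclideanSpace ℝ (Fin n)) : EuclideanSpace ℝ (Fin n) :=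
  WithLp.toLp 2 (Function.update x.ofLp i (-(x i)))

/-- A curve in `ℝⁿ ∪ {∞}`: a continuous map of a compact interval `[a,b]`. -/
structure Curve (n : ℕ) where
  a : ℝ
  b : ℝ
  le : a ≤ b
  toFun : ℝ → OnePoint (EuclideanSpace ℝ (Fin n))
  cont : ContinuousOn toFun (Icc a b)

/-- `c` is the restriction of `γ` to the compact subinterval `[s,t]`, on which `γ` avoids `∞`. -/
def Curve.IsSub (γ : Curve n) (s t : ℝ) (c : ℝ → EuclideanSpace ℝ (Fin n)) : Prop :=
  γ.a ≤ s ∧ s ≤ t ∧ t ≤ γ.b ∧ ∀ τ ∈ Icc s t, γ.toFun τ = (c τ : OnePoint (EuclideanSpace ℝ (Fin n)))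

/-- Locally rectifiable: compact subcurves in `ℝⁿ` have finite length. -/
def Curve.LocRect (γ : Curve n) : Prop :=
  ∀ s t c, γ.IsSub s t c → eVariationOn c (Icc s t) ≠ ⊤

/-- The integral of `ρ` along `γ` with respect to arc length: the supremum of the integrals over
the compact subcurves in `ℝⁿ`. -/
noncomputable def Curve.integral (γ : Curve n) (ρ : EuclideanSpace ℝ (Fin n) → ℝ≥0∞) : ℝ≥0∞ :=
  ⨆ (s : ℝ) (t : ℝ) (c : ℝ → EuclideanSpace ℝ (Fin n)) (_ : γ.IsSub s t c), arcIntegral ρ c s t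

/-- `ρ` is admissible for the curve family `Γ`. -/
def Admissible (Γ : Set (Curve n)) (ρ : EuclideanSpace ℝ (Fin n) → ℝ≥0∞) : Prop :=
  ∀ γ ∈ Γ, γ.LocRect → 1 ≤ γ.integral ρ

/-- The `n`-modulus of a family of curves. -/
noncomputable def modulus (Γ : Set (Curve n)) : ℝ≥0∞ :=
  ⨅ (ρ : EuclideanSpace ℝ (Fin n) → ℝ≥0∞) (_ : Measurable ρ) (_ : Admissible Γ ρ), ∫⁻ x, ρ x ^ n

/-- The family of all curves in `ℝⁿ ∪ {∞}` joining `A` and `B`. -/
def joining (A B : Set (OnePoint (EuclideanSpace ℝ (Fin n)))) : Set (Curve n) :=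
  {γ | γ.toFun γ.a ∈ A ∧ γ.toFun γ.b ∈ B}

lemma reflect_eq (i : Fin n) : (reflect i : EuclideanSpace ℝ (Fin n) → _) =
    LinearIsometryEquiv.piLpCongrRight 2 (fun j : Fin n => if j = i then
      LinearIsometryEquiv.neg ℝ (E := ℝ) else LinearIsometryEquiv.refl ℝ ℝ) := by
  funext x
  ext j
  by_cases h : j = i
  · subst h; simp [reflect]
  · simp [reflect, h]

lemma reflect_refl (i : Fin n) : Refl (reflect i) (fun x => -(x i)) where
  lip := by
    rw [reflect_eq]
    exact (LinearIsometryEquiv.isometry _).lipschitz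
  invol x := by
    ext j
    by_cases h : j = i
    · subst h; simp [reflect]
    · simp [reflect, h]
  fcont := by fun_prop
  fneg x := by simp [reflect]
  fix x hx := by
    ext j
    by_cases h : j = i
    · subst h
      simp only [reflect, Function.update_self]
      linarith
    · simp [reflect, h]

lemma reflect_mp (i : Fin n) :
    MeasurePreserving (reflect i : EuclideanSpace ℝ (Fin n) → _) volume volume := by
  rw [reflect_eq]
  exact LinearIsometryEquiv.measurePreserving _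

lemma hfun_reflect (i : Fin n) (x : EuclideanSpace ℝ (Fin n)) : hfun (reflect i x) = hfun x := by
  rw [hfun, hfun, reflect_eq, LinearIsometryEquiv.norm_map]

/-- The parametric form of admissibility. -/
lemma param_of_admissible {A B : Set (EuclideanSpace ℝ (Fin n))}
    {ρ : EuclideanSpace ℝ (Fin n) → ℝ≥0∞}
    (hadm : Admissible (joining ((↑) '' A) ((↑) '' B)) ρ) (c : ℝ → EuclideanSpace ℝ (Fin n)) (ℓ : ℝ)
    (hc : LipschitzWith 1 c) (hℓ : 0 ≤ ℓ) (h0 : c 0 ∈ A) (h1 : c ℓ ∈ B) :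
    1 ≤ ∫⁻ τ in Ioc 0 ℓ, ρ (c τ) := by
  let γ : Curve n := ⟨0, ℓ, hℓ, fun τ => (c τ : OnePoint _),
    (OnePoint.continuous_coe.comp hc.continuous).continuousOn⟩
  have hsub : ∀ s t c', γ.IsSub s t c' → ∀ τ ∈ Icc s t, c τ = c' τ := by
    intro s t c' h τ hτ
    exact OnePoint.coe_injective (h.2.2.2 τ hτ)
  have hlip : ∀ s t c', γ.IsSub s t c' → LipschitzOnWith 1 c' (Icc s t) := by
    intro s t c' h x hx y hy
    rw [← hsub s t c' h x hx, ← hsub s t c' h y hy]
    exact hc x y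
  have hrect : γ.LocRect := by
    intro s t c' h
    have h2 := (hlip s t c' h).locallyBoundedVariationOn s t ⟨le_rfl, h.2.1⟩ ⟨h.2.1, le_rfl⟩
    rwa [inter_self] at h2
  refine (hadm γ ⟨⟨c 0, h0, rfl⟩, ⟨c ℓ, h1, rfl⟩⟩ hrect).trans ?_
  refine iSup_le fun s => iSup_le fun t => iSup_le fun c' => iSup_le fun h => ?_
  refine (arcIntegral_le ρ h.2.1 (hlip s t c' h)).trans ?_
  rw [setLIntegral_congr (Ioc_ae_eq_Icc (μ := (volume : Measure ℝ)))]
  calc ∫⁻ τ in Icc s t, ρ (c' τ) = ∫⁻ τ in Icc s t, ρ (c τ) := by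
        refine setLIntegral_congr_fun measurableSet_Icc fun τ hτ => ?_
        rw [hsub s t c' h τ hτ]
    _ ≤ ∫⁻ τ in Icc 0 ℓ, ρ (c τ) := lintegral_mono_set (Icc_subset_Icc h.1 h.2.2.1)

/-- A criterion for admissibility. -/
lemma admissible_of_param {A B : Set (EuclideanSpace ℝ (Fin n))} (hA : IsCompact A)
    {ρ : EuclideanSpace ℝ (Fin n) → ℝ≥0∞} {e : ℝ≥0} (he : 0 < e) (hρe : ∀ x, (e : ℝ≥0∞) * hfun x ≤ ρ x)
    (hpar : ∀ (c : ℝ → EuclideanSpace ℝ (Fin n)) (ℓ : ℝ), LipschitzWith 1 c → 0 ≤ ℓ → c 0 ∈ A →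
      c ℓ ∈ B → 1 ≤ ∫⁻ τ in Ioc 0 ℓ, ρ (c τ)) :
    Admissible (joining ((↑) '' A) ((↑) '' B)) ρ := by
  rintro γ ⟨⟨x, hx, hxa⟩, ⟨y, hy, hyb⟩⟩ hrect
  -- finite part
  let c : ℝ → EuclideanSpace ℝ (Fin n) := fun τ => (γ.toFun τ).elim 0 id
  have hcval : ∀ τ, γ.toFun τ ≠ OnePoint.infty → γ.toFun τ = (c τ : OnePoint _) := by
    intro τ hτ
    obtain ⟨z, hz⟩ := OnePoint.ne_infty_iff_exists.1 hτ
    simp only [c]
    rw [← hz]
    rfl
  have hmain : ∀ t, γ.a ≤ t → t ≤ γ.b → (∀ τ ∈ Icc γ.a t, γ.toFun τ ≠ OnePoint.infty) →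
      γ.IsSub γ.a t c ∧ ContinuousOn c (Icc γ.a t) := by
    intro t hat htb hfin
    refine ⟨⟨le_rfl, hat, htb, fun τ hτ => hcval τ (hfin τ hτ)⟩, ?_⟩
    have h1 : ContinuousOn (fun τ => (c τ : OnePoint (EuclideanSpace ℝ (Fin n)))) (Icc γ.a t) :=
      (γ.cont.mono (Icc_subset_Icc_right htb)).congr fun τ hτ => (hcval τ (hfin τ hτ)).symm
    intro τ hτ
    exact (OnePoint.isOpenEmbedding_coe.isInducing.continuousWithinAt_iff).2 (h1 τ hτ)
  have hca : c γ.a = x := by
    simp only [c]; rw [← hxa]; rfl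
  by_cases hinf : ∃ τ ∈ Icc γ.a γ.b, γ.toFun τ = OnePoint.infty
  · -- the curve passes through infinity
    obtain ⟨R₀, hR₀⟩ := hA.isBounded.exists_norm_le
    have hR₀' : 0 ≤ R₀ := (norm_nonneg _).trans (hR₀ x hx)
    obtain ⟨R, -, hR⟩ := Hr_div hR₀' (1 / e) (by positivity)
    let T : Set ℝ := Icc γ.a γ.b ∩ γ.toFun ⁻¹' {OnePoint.infty}
    have hTc : IsCompact T :=
      isCompact_Icc.of_isClosed_subset
        (γ.cont.preimage_isClosed_of_isClosed isClosed_Icc isClosed_singleton) inter_subset_left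
    have hTn : T.Nonempty := by
      obtain ⟨τ, h1, h2⟩ := hinf; exact ⟨τ, h1, h2⟩
    have hT := hTc.sInf_mem hTn
    set T₀ := sInf T with hT₀
    have hfin : ∀ τ ∈ Ico γ.a T₀, γ.toFun τ ≠ OnePoint.infty := by
      intro τ hτ heq
      exact absurd (csInf_le hTc.bddBelow (show τ ∈ T from ⟨⟨hτ.1, hτ.2.le.trans hT.1.2⟩, heq⟩))
        (not_le.2 hτ.2)
    have haT : γ.a < T₀ := by
      refine lt_of_le_of_ne hT.1.1 fun h => ?_
      have h2 : γ.toFun γ.a = OnePoint.infty := by rw [h]; exact hT.2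
      rw [← hxa] at h2
      exact OnePoint.coe_ne_infty x h2
    -- find a point with large norm
    obtain ⟨t, ht, htR⟩ : ∃ t ∈ Ico γ.a T₀, R ≤ ‖c t‖ := by
      by_contra hcon
      push Not at hcon
      have hclosed : IsClosed ((↑) '' Metric.closedBall (0 : EuclideanSpace ℝ (Fin n)) R :
          Set (OnePoint (EuclideanSpace ℝ (Fin n)))) :=
        ((isCompact_closedBall _ _).image OnePoint.continuous_coe).isClosed
      have hmap : ∀ τ ∈ Ico γ.a T₀, γ.toFun τ ∈ ((↑) '' Metric.closedBall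
          (0 : EuclideanSpace ℝ (Fin n)) R : Set (OnePoint (EuclideanSpace ℝ (Fin n)))) := by
        intro τ hτ
        rw [hcval τ (hfin τ hτ)]
        exact ⟨c τ, by simpa using (hcon τ hτ).le, rfl⟩
      have hlim : Tendsto γ.toFun (𝓝[Ico γ.a T₀] T₀) (𝓝 (γ.toFun T₀)) :=
        (γ.cont T₀ hT.1).mono_left (nhdsWithin_mono _ fun τ hτ => ⟨hτ.1, hτ.2.le.trans hT.1.2⟩)
      have hne : (𝓝[Ico γ.a T₀] T₀).NeBot := by
        rw [← mem_closure_iff_nhdsWithin_neBot, closure_Ico haT.ne]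
        exact ⟨haT.le, le_rfl⟩
      have h1 := hclosed.mem_of_tendsto hlim (eventually_nhdsWithin_of_forall hmap)
      obtain ⟨z, -, hz⟩ := h1
      have h2 : γ.toFun T₀ = OnePoint.infty := hT.2
      rw [h2] at hz
      exact OnePoint.coe_ne_infty z hz
    obtain ⟨hsub, hcont⟩ := hmain t ht.1 (ht.2.le.trans hT.1.2)
      fun τ hτ => hfin τ ⟨hτ.1, hτ.2.trans_lt ht.2⟩
    obtain ⟨d, ℓ, hd, hℓ, hd0, hd1, hint⟩ := exists_arc ht.1 (hrect _ _ _ hsub) hcont
    have h1 := hfun_length (R₀ := R₀) (R := R) hd hℓ (by rw [hd0, hca]; exact hR₀ x hx)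
      (by rw [hd1]; exact htR)
    calc (1 : ℝ≥0∞) = e * ENNReal.ofReal (1 / e) := by
          rw [one_div, ENNReal.ofReal_inv_of_pos (by exact_mod_cast he)]
          simp only [ENNReal.ofReal_coe_nnreal]
          rw [ENNReal.mul_inv_cancel (by exact_mod_cast he.ne') ENNReal.coe_ne_top]
      _ ≤ e * ∫⁻ τ in Ioc 0 ℓ, (hfun (d τ) : ℝ≥0∞) := by gcongr; exact hR.trans h1
      _ = ∫⁻ τ in Ioc 0 ℓ, (e : ℝ≥0∞) * (hfun (d τ) : ℝ≥0∞) := by
          rw [lintegral_const_mul' _ _ ENNReal.coe_ne_top]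
      _ ≤ ∫⁻ τ in Ioc 0 ℓ, ρ (d τ) := lintegral_mono fun τ => hρe _
      _ = arcIntegral ρ c γ.a t := (hint ρ).symm
      _ ≤ γ.integral ρ :=
          le_iSup_of_le γ.a (le_iSup_of_le t (le_iSup_of_le c (le_iSup_of_le hsub le_rfl)))
  · push Not at hinf
    obtain ⟨hsub, hcont⟩ := hmain γ.b γ.le le_rfl hinf
    obtain ⟨d, ℓ, hd, hℓ, hd0, hd1, hint⟩ := exists_arc γ.le (hrect _ _ _ hsub) hcont
    have hcb : c γ.b = y := by
      simp only [c]; rw [← hyb]; rfl
    have h1 := hpar d ℓ hd hℓ (by rw [hd0, hca]; exact hx) (by rw [hd1, hcb]; exact hy)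
    rw [← hint ρ] at h1
    exact h1.trans (le_iSup_of_le γ.a (le_iSup_of_le γ.b (le_iSup_of_le c
      (le_iSup_of_le hsub le_rfl))))

end Main


section Final
variable {n : ℕ}

lemma step (i : Fin n) {E F : Set (EuclideanSpace ℝ (Fin n))} (hE : IsCompact E)
    (hF : IsCompact F) (hEi : ∀ x ∈ E, 0 < x i) (hFi : ∀ x ∈ F, x i < 0)
    {G : EuclideanSpace ℝ (Fin n) → ℝ≥0∞} (hG : LowerSemicontinuous G)
    (hadm : ∀ (c : ℝ → EuclideanSpace ℝ (Fin n)) (ℓ : ℝ), LipschitzWith 1 c → 0 ≤ ℓ → c 0 ∈ E →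
      c ℓ ∈ reflect i '' F → 1 ≤ ∫⁻ τ in Ioc 0 ℓ, G (c τ))
    {e : ℝ≥0} (he : 0 < e) {θ : ℝ≥0} (hθ0 : 0 < θ) (hθ : θ < 1) :
    modulus (joining ((↑) '' E) ((↑) '' F) : Set (Curve n)) ≤
      ((θ : ℝ≥0∞)⁻¹) ^ n * ∫⁻ x, (G x + e * hfun x) ^ n := by
  have hR := reflect_refl i
  obtain ⟨k, hk⟩ := exists_phik hG hE (hF.image hR.lip.continuous) he
    (θ := (θ : ℝ≥0∞)) (by exact_mod_cast hθ) hadm
  let φ : EuclideanSpace ℝ (Fin n) → ℝ≥0∞ := fun x => (phik G e k x : ℝ≥0∞)
  have hφc : Continuous φ := ENNReal.continuous_coe.comp (phik_continuous G e k)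
  let u := upot φ E
  have hu : Continuous u := upot_continuous hφc (fun x => ENNReal.coe_ne_top) E
  let v := vpol (reflect i) (fun x => -(x i)) u
  let ψ := psi (reflect i) (fun x => -(x i)) φ u
  have hUG : UG ψ v := psi_UG hR (phik_continuous G e k) hu (upot_UG φ E)
  have hψm : Measurable ψ := psi_measurable hR hu hφc.measurable
  have hθinv : (1 : ℝ≥0∞) ≤ (θ : ℝ≥0∞)⁻¹ := by
    rw [ENNReal.one_le_inv]; exact_mod_cast hθ.le
  have hφe : ∀ x, (e : ℝ≥0∞) * hfun x ≤ φ x := fun x => by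
    simp only [φ]; rw [phik_coe]; exact le_add_self
  have hψe : ∀ x, (e : ℝ≥0∞) * hfun x ≤ ψ x := by
    intro x
    rcases psi_cases (r := reflect i) (f := fun x => -(x i)) (φ := φ) (u := u) x with h | h
    · simp only [ψ]; rw [h]; exact hφe x
    · simp only [ψ]; rw [h]
      have := hφe (reflect i x)
      rwa [hfun_reflect] at this
  have hadm' : Admissible (joining ((↑) '' E) ((↑) '' F)) (fun x => (θ : ℝ≥0∞)⁻¹ * ψ x) := by
    refine admissible_of_param hE he (fun x => ?_) ?_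
    · calc (e : ℝ≥0∞) * hfun x ≤ ψ x := hψe x
        _ = 1 * ψ x := (one_mul _).symm
        _ ≤ _ := by gcongr
    · intro c ℓ hc hℓ h0 h1
      have hnear := (hUG c hc 0 ℓ hℓ).2
      have hv0 : v (c 0) = 0 := by
        have hneg : ¬ (0 : ℝ) ≤ -(c 0 i) := by have := hEi _ h0; linarith
        simp only [v, vpol, if_neg hneg]
        refine le_antisymm ((min_le_left _ _).trans ?_) bot_le
        simp only [u, upot]
        rw [pot_eq_zero h0]
        exact min_le_right _ _
      have hv1 : (θ : ℝ≥0∞) ≤ v (c ℓ) := by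
        have hpos : (0 : ℝ) ≤ -(c ℓ i) := by have := hFi _ h1; linarith
        simp only [v, vpol, if_pos hpos]
        refine le_trans ?_ (le_max_right _ _)
        simp only [u, upot]
        refine le_min (by exact_mod_cast hθ.le) ?_
        refine le_iInf fun d => le_iInf fun l => le_iInf fun h => ?_
        exact hk d l h.1 h.2.1 h.2.2.1 (by rw [h.2.2.2]; exact mem_image_of_mem _ h1)
      rw [hv0, zero_add] at hnear
      rw [lintegral_const_mul' _ _ (ENNReal.inv_ne_top.2 (by exact_mod_cast hθ0.ne'))]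
      calc (1 : ℝ≥0∞) = (θ : ℝ≥0∞)⁻¹ * θ :=
            (ENNReal.inv_mul_cancel (by exact_mod_cast hθ0.ne') ENNReal.coe_ne_top).symm
        _ ≤ _ := by gcongr; exact hv1.trans hnear
  refine (iInf_le _ (fun x => (θ : ℝ≥0∞)⁻¹ * ψ x)).trans ?_
  refine (iInf_le _ (hψm.const_mul _)).trans ?_
  refine (iInf_le _ hadm').trans ?_
  simp only [mul_pow]
  rw [lintegral_const_mul _ (hψm.pow_const n), lintegral_psi hR (reflect_mp i) hu hφc.measurable]
  gcongr with x
  simp only [φ]
  rw [phik_coe]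
  gcongr
  exact (reg_le G k x).trans (min_le_left _ _)

theorem reflection_le (hn : 2 ≤ n) (i : Fin n) {E F : Set (EuclideanSpace ℝ (Fin n))}
    (hE : IsCompact E) (hF : IsCompact F) (hEi : ∀ x ∈ E, 0 < x i) (hFi : ∀ x ∈ F, x i < 0) :
    modulus (joining ((↑) '' E) ((↑) '' F) : Set (Curve n)) ≤
      modulus (joining ((↑) '' E) ((↑) '' (reflect i '' F)) : Set (Curve n)) := by
  refine le_iInf fun ρ => le_iInf fun hρ => le_iInf fun hadm => ?_
  rcases eq_or_ne (∫⁻ x, ρ x ^ n) ⊤ with htop | htop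
  · rw [htop]; exact le_top
  refine ENNReal.le_of_forall_pos_le_add fun ε hε _ => ?_
  obtain ⟨g, hgρ, hgl, hgi⟩ := exists_le_lowerSemicontinuous_lintegral_ge volume
    (fun x => ρ x ^ n) (hρ.pow_const n) (ε := (ε : ℝ≥0∞)) (by exact_mod_cast hε.ne')
  have hn0 : (n : ℝ) ≠ 0 := by positivity
  have hn0' : n ≠ 0 := by omega
  let G : EuclideanSpace ℝ (Fin n) → ℝ≥0∞ := fun x => (g x) ^ ((n : ℝ)⁻¹)
  have hGn : ∀ x, G x ^ n = g x := by
    intro x
    simp only [G]
    rw [← ENNReal.rpow_natCast, ← ENNReal.rpow_mul, inv_mul_cancel₀ hn0, ENNReal.rpow_one]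
  have hGl : LowerSemicontinuous G := by
    have h1 : Monotone fun a : ℝ≥0∞ => a ^ ((n : ℝ)⁻¹) :=
      ENNReal.monotone_rpow_of_nonneg (by positivity)
    exact (ENNReal.continuous_rpow_const).comp_lowerSemicontinuous hgl h1
  have hρG : ∀ x, ρ x ≤ G x := by
    intro x
    have h1 : ρ x ^ n ≤ G x ^ n := by rw [hGn]; exact hgρ x
    exact (ENNReal.pow_le_pow_left_iff hn0').1 h1
  have hpar : ∀ (c : ℝ → EuclideanSpace ℝ (Fin n)) (ℓ : ℝ), LipschitzWith 1 c → 0 ≤ ℓ → c 0 ∈ E →
      c ℓ ∈ reflect i '' F → 1 ≤ ∫⁻ τ in Ioc 0 ℓ, G (c τ) := by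
    intro c ℓ hc hℓ h0 h1
    exact (param_of_admissible hadm c ℓ hc hℓ h0 h1).trans (lintegral_mono fun τ => hρG _)
  have hGint : ∫⁻ x, G x ^ n ≤ (∫⁻ x, ρ x ^ n) + ε := by
    simp only [hGn]; exact hgi
  have hGfin : ∫⁻ x, G x ^ n ≠ ⊤ := ne_top_of_le_ne_top (by finiteness) hGint
  refine le_trans ?_ hGint
  -- sequences
  let em : ℕ → ℝ≥0 := fun m => 1 / ((m : ℝ≥0) + 1)
  have hem0 : ∀ m, 0 < em m := fun m => by positivity
  have hem1 : ∀ m, em m ≤ 1 := fun m => by
    simp only [em]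
    rw [div_le_one (by positivity)]
    exact le_add_self
  have hemlim : Tendsto em atTop (𝓝 0) := by
    simpa [em] using tendsto_one_div_add_atTop_nhds_zero_nat (𝕜 := ℝ≥0)
  let tm : ℕ → ℝ≥0 := fun m => 1 - em (m + 1)
  have hem1' : ∀ m, em (m + 1) < 1 := fun m => by
    simp only [em]
    rw [div_lt_one (by positivity)]
    push_cast
    exact lt_of_lt_of_le (by norm_num : (1 : ℝ≥0) < 1 + 1) (by gcongr; exact le_add_self)
  have htm0 : ∀ m, 0 < tm m := fun m => tsub_pos_of_lt (hem1' m)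
  have htm1 : ∀ m, tm m < 1 := fun m => tsub_lt_self one_pos (hem0 _)
  have htmlim : Tendsto tm atTop (𝓝 1) := by
    have h1 : Tendsto (fun m => em (m + 1)) atTop (𝓝 0) := hemlim.comp (tendsto_add_atTop_nat 1)
    have h2 := (tendsto_const_nhds (x := (1 : ℝ≥0))).sub h1
    simpa [tm] using h2
  have hstep : ∀ m, modulus (joining ((↑) '' E) ((↑) '' F) : Set (Curve n)) ≤
      ((tm m : ℝ≥0∞)⁻¹) ^ n * ∫⁻ x, (G x + em m * hfun x) ^ n := fun m =>
    step i hE hF hEi hFi hGl hpar (hem0 m) (htm0 m) (htm1 m)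
  have hGm : Measurable G := hGl.measurable
  have hhm : Measurable (fun x : EuclideanSpace ℝ (Fin n) => (hfun x : ℝ≥0∞)) :=
    (ENNReal.continuous_coe.comp hfun_continuous).measurable
  have hlim1 : Tendsto (fun m => ∫⁻ x, (G x + em m * hfun x) ^ n) atTop (𝓝 (∫⁻ x, G x ^ n)) := by
    refine tendsto_lintegral_of_dominated_convergence
      (fun x => (2 : ℝ≥0∞) ^ n * (G x ^ n + (hfun x : ℝ≥0∞) ^ n)) (fun m => ?_) (fun m => ?_) ?_ ?_
    · exact (hGm.add (hhm.const_mul _)).pow_const n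
    · refine Eventually.of_forall fun x => ?_
      have h1 : G x + em m * hfun x ≤ 2 * max (G x) (hfun x) := by
        rw [two_mul]
        refine add_le_add (le_max_left _ _) ?_
        calc (em m : ℝ≥0∞) * hfun x ≤ 1 * hfun x := by
              gcongr; exact_mod_cast hem1 m
          _ ≤ _ := by rw [one_mul]; exact le_max_right _ _
      calc (G x + em m * hfun x) ^ n ≤ (2 * max (G x) (hfun x)) ^ n := by gcongr
        _ = 2 ^ n * (max (G x) (hfun x)) ^ n := mul_pow _ _ _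
        _ ≤ 2 ^ n * (G x ^ n + (hfun x : ℝ≥0∞) ^ n) := by
            gcongr
            rcases max_choice (G x) (hfun x : ℝ≥0∞) with h | h <;> rw [h]
            · exact le_self_add
            · exact le_add_self
    · rw [lintegral_const_mul' _ _ (by finiteness), lintegral_add_left (hGm.pow_const n)]
      exact ENNReal.mul_ne_top (by finiteness) (ENNReal.add_ne_top.2 ⟨hGfin, hfun_energy hn⟩)
    · refine Eventually.of_forall fun x => ?_
      have h1 : Tendsto (fun m => (em m : ℝ≥0∞) * hfun x) atTop (𝓝 0) := by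
        have h2 : Tendsto (fun m => (em m : ℝ≥0∞)) atTop (𝓝 0) := by
          have h := ENNReal.tendsto_coe.2 hemlim
          rwa [ENNReal.coe_zero] at h
        have h3 := ENNReal.Tendsto.mul_const (b := (hfun x : ℝ≥0∞)) h2 (Or.inr ENNReal.coe_ne_top)
        rwa [zero_mul] at h3
      have h4 := (tendsto_const_nhds (x := G x)).add h1
      rw [add_zero] at h4
      exact ENNReal.Tendsto.pow h4
  have hlim2 : Tendsto (fun m => ((tm m : ℝ≥0∞)⁻¹) ^ n) atTop (𝓝 1) := by
    have h2 : Tendsto (fun m => (tm m : ℝ≥0∞)) atTop (𝓝 1) := by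
      have h := ENNReal.tendsto_coe.2 htmlim
      rwa [ENNReal.coe_one] at h
    have h3 : Tendsto (fun m => (tm m : ℝ≥0∞)⁻¹) atTop (𝓝 (1 : ℝ≥0∞)⁻¹) :=
      tendsto_inv_iff.2 h2
    have h4 := ENNReal.Tendsto.pow (n := n) h3
    simpa using h4
  have hlim := ENNReal.Tendsto.mul hlim2 (Or.inl one_ne_zero) hlim1 (Or.inr ENNReal.one_ne_top)
  rw [one_mul] at hlim
  exact ge_of_tendsto' hlim hstep

end Final

/-- For every `n ≥ 2` and all nonempty compact sets `E`, `F` on opposite sides of the hyperplane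
`x_i = 0`, the modulus of the curves joining `E` and `F` is at most the modulus of the curves
joining `E` and the reflection of `F`. -/
theorem result : ∀ (n : ℕ), 2 ≤ n → ∀ (i : Fin n) (E F : Set (EuclideanSpace ℝ (Fin n))),
    E.Nonempty → F.Nonempty → IsCompact E → IsCompact F →
    E ⊆ {x | 0 < x i} → F ⊆ {x | x i < 0} →
    modulus (joining ((↑) '' E) ((↑) '' F) : Set (Curve n)) ≤
      modulus (joining ((↑) '' E) ((↑) '' (reflect i '' F)) : Set (Curve n)) :=
  fun _ hn i _ _ _ _ hE hF hEi hFi => reflection_le hn i hE hF hEi hFi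

end Pool.Agent.Results.MP_69cc0b_an.Reflection
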